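import Pool.Agent.Helper88.RT.Dec

/-!
# Project FS (MP_120218_co): sets with few sums.  Definitions and interface statements.
-/

set_option autoImplicit false

open Finset

namespace Pool.Agent.Helper99.FS

open Pool.Agent.Helper15.BP Pool.Agent.Helper84.TR Pool.Agent.Helper88.RT

/-- P1 (entropy lemma in a general abelian group): if `X`, `Y` are independent,
`H(X + Y) ≤ (1 + τ) / 2 (H(X) + H(Y))` and `X` has a value `x₀` of mass at least `κ`, then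
`X - x₀` has order at most `M`, except on a set of mass at most `σ`. -/
def AtomLemma : Prop :=
  ∀ κ σ : ℝ, 0 < κ → κ ≤ 1 → 0 < σ → ∃ (τ : ℝ) (M : ℕ), 0 < τ ∧ τ ≤ 1 / 2 ∧ 1 ≤ M ∧
    ∀ (Ω Ω' G : Type) [Fintype Ω] [Fintype Ω'] [AddCommGroup G] (w : Ω → ℝ) (w' : Ω' → ℝ)
      (X : Ω → G) (Y : Ω' → G) (x₀ : G), IsPr w → IsPr w' →
      Ent (prodW w w') (fun p => X p.1 + Y p.2) ≤ (1 + τ) / 2 * (Ent w X + Ent w' Y) →
      κ ≤ pr w X x₀ →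
      mass w (fun o => ¬ ∃ j : ℕ, 1 ≤ j ∧ j ≤ M ∧ j • (X o - x₀) = 0) ≤ σ

/-- the inequality `(*)` modulo `n` for uniform variables on `A` and `B` -/
def Star (τ : ℝ) (A B : Finset ℤ) (n : ℕ) : Prop :=
  Ent (prodW (uw A) (uw B)) (fun q => (((q.1 : ℤ) + (q.2 : ℤ) : ℤ) : ZMod n)) ≤
    (1 + τ) / 2 * (Ent (uw A) (fun x => ((x : ℤ) : ZMod n)) +
      Ent (uw B) (fun x => ((x : ℤ) : ZMod n)))

open Classical in
/-- P2 (no popular classes beyond `m`): if `A` and `B` lie in classes modulo `m` and satisfy `(*)`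
modulo every multiple of `m`, and a class modulo `m p ^ l`, `p ^ l > M`, contains `κ |A|` elements of
`A`, then `A` and `B` lie in classes modulo `m p`. -/
def AtomsZ : Prop :=
  ∀ κ : ℝ, 0 < κ → κ ≤ 1 → ∃ (τ : ℝ) (M : ℕ), 0 < τ ∧ τ ≤ 1 / 2 ∧ 1 ≤ M ∧
    ∀ (A B : Finset ℤ) (m p l : ℕ) (r : ℤ), A.Nonempty → B.Nonempty → 0 < m → p.Prime →
      M < p ^ l → (∀ a ∈ A, ∀ a' ∈ A, (m : ℤ) ∣ a - a') → (∀ b ∈ B, ∀ b' ∈ B, (m : ℤ) ∣ b - b') →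
      (∀ n : ℕ, 0 < n → m ∣ n → Star τ A B n) →
      κ * (A.card : ℝ) ≤ ((A.filter (fun a => ((m * p ^ l : ℕ) : ℤ) ∣ a - r)).card : ℝ) →
      (∀ a ∈ A, ∀ a' ∈ A, ((m * p : ℕ) : ℤ) ∣ a - a') ∧
        (∀ b ∈ B, ∀ b' ∈ B, ((m * p : ℕ) : ℤ) ∣ b - b')

end Pool.Agent.Helper99.FS
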