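import Pool.Agent.Helper99.RT.Fold

/-!
# Project FS (MP_120218_co): sets with few sums.  The two final statements.
-/

set_option autoImplicit false

open Finset Polynomial

namespace Pool.Agent.Helper99.FS

open Pool.Agent.Helper99.TR (valProd polyProd)
open Pool.Agent.Helper99.RT (rvals smm polyRec)

/-- one polynomial: expansion for sets with few sums -/
def FSZ : Prop :=
  ∀ (ε : ℝ) (d : ℕ), 0 < ε → 1 ≤ d → ∃ c : ℝ, 0 < c ∧ ∀ A : Finset ℤ, A.Nonempty →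
    ((image₂ (fun a b => a + b) A A).card : ℝ) ≤ (A.card : ℝ) ^ (1 + c) →
    ∀ F : ℤ[X], 1 ≤ F.natDegree → F.natDegree ≤ d → (∃ a ∈ A, F.eval a ≠ 0) →
    ∀ B : Finset ℂ, B.Nonempty →
      ((0 : ℂ) ∉ B →
        c * ((A.card : ℝ) * (B.card : ℝ)) ^ (1 - ε) ≤ (((valProd F A B).erase 0).card : ℝ)) ∧
      c * ((A.card : ℝ) * (B.card : ℝ)) ^ (1 - ε) ≤ ((smm (rvals F A) B).card : ℝ)

/-- `k` polynomials -/
def FSK : Prop :=
  ∀ k d : ℕ, 1 ≤ k → ∀ ε : ℝ, 0 < ε → ∃ c : ℝ, 0 < c ∧ ∀ A : Finset ℤ, A.Nonempty →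
    ((image₂ (fun a b => a + b) A A).card : ℝ) ≤ (A.card : ℝ) ^ (1 + c) →
    ∀ F : Fin k → ℤ[X],
      (∀ i, 1 ≤ (F i).natDegree ∧ (F i).natDegree ≤ d ∧ ∃ a ∈ A, (F i).eval a ≠ 0) →
      ∀ B : Finset ℂ, B.Nonempty →
        ((0 : ℂ) ∉ B →
          c * ((A.card : ℝ) ^ ((k : ℝ) - ε) * (B.card : ℝ) ^ (1 - ε)) ≤
            (((polyProd F A B).erase 0).card : ℝ)) ∧
        c * ((A.card : ℝ) ^ ((k : ℝ) - ε) * (B.card : ℝ) ^ (1 - ε)) ≤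
          ((polyRec F A B).card : ℝ)

end Pool.Agent.Helper99.FS
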