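import Pool.Agent.Helper99.RT.NR
import Pool.Agent.Helper99.RT.Main
import Pool.Agent.Helper99.TR.ZerD
import Pool.Agent.Helper34.TR.MixT

/-!
# Project FS (MP_120218_co), P4: sets without popular residue classes
-/

set_option autoImplicit false

open Finset Polynomial

namespace Pool.Agent.Helper99.FS

open Pool.Agent.Helper26.TR Pool.Agent.Helper88.NZ Pool.Agent.Helper99.TR
open Pool.Agent.Helper99.RT (rvals mem_rvals smm mem_smm hSum_large expandAdd hSum nrMix)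
open Pool.Agent.Helper88.RT (W1a NRMix recSum)
open Pool.Agent.Helper34.TR (nzMixT)

/-- no class modulo a prime power larger than `M` contains `κ |A|` elements of `A` -/
def NoPop (κ : ℝ) (M : ℕ) (A : Finset ℤ) : Prop :=
  ∀ (q t : ℕ) (r : ℤ), q.Prime → M < q ^ t →
    ((A.filter (fun a => (q : ℤ) ^ t ∣ a - r)).card : ℝ) < κ * A.card

theorem NoPop.mono {κ κ' : ℝ} (h : κ ≤ κ') {M : ℕ} {A : Finset ℤ} (hA : NoPop κ M A) :
    NoPop κ' M A := by
  intro q t r hq hM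
  exact (hA q t r hq hM).trans_le (mul_le_mul_of_nonneg_right h (Nat.cast_nonneg _))

/-- the popular divisors of the values of a primitive polynomial -/
theorem lev_bound {A : Finset ℤ} {d : ℕ} (hd : 1 ≤ d) (hA : 2 * d ≤ A.card) {κ : ℝ}
    (hκ0 : 0 < κ) (hκ1 : κ ≤ 1) {M : ℕ} (hM : 1 ≤ M) (hNP : NoPop (κ / (2 * (d : ℝ) ^ 2)) M A)
    {P : ℤ[X]} (hP : P.IsPrimitive) (hP1 : 1 ≤ P.natDegree) (hPd : P.natDegree ≤ d) {q : ℕ}
    (hq : q.Prime) :
    (lev κ (fz A P) q : ℝ) * Real.log q ≤ if q ≤ M then d * Real.log M else 0 := by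
  classical
  have hAne : A.Nonempty := card_pos.1 (by omega)
  have hA0 : (0 : ℝ) < A.card := by exact_mod_cast hAne.card_pos
  have hd0 : (0 : ℝ) < d := by exact_mod_cast hd
  set l := lev κ (fz A P) q with hl
  rcases Nat.eq_zero_or_pos l with h0 | hlpos
  · rw [h0, Nat.cast_zero, zero_mul]
    split_ifs
    · exact mul_nonneg hd0.le (Real.log_natCast_nonneg _)
    · exact le_rfl
  obtain ⟨t, ht0, ht1, ht2⟩ : ∃ t : ℕ, 1 ≤ t ∧ l ≤ d * t ∧ d * (t - 1) < l := by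
    refine ⟨(l + (d - 1)) / d, ?_⟩
    have h1 := Nat.div_add_mod (l + (d - 1)) d
    have h2 := Nat.mod_lt (l + (d - 1)) (by omega : d > 0)
    generalize (l + (d - 1)) / d = t at h1 ⊢
    generalize (l + (d - 1)) % d = u at h1 h2
    have ht0 : 1 ≤ t := by
      by_contra h
      have h0 : t = 0 := by omega
      rw [h0, Nat.mul_zero] at h1
      omega
    have h3 : d * (t - 1) = d * t - d := by rw [Nat.mul_sub, Nat.mul_one]
    have h4 : d ≤ d * t := Nat.le_mul_of_pos_right d ht0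
    refine ⟨ht0, by omega, by omega⟩
  have hpts := pop_points hP1 hPd hA hκ0.le hκ1 (le_refl l)
  set T : Finset ℤ := A.filter (fun a => (q : ℤ) ^ l ∣ P.eval a) with hT
  have hTne : T.Nonempty := by
    rw [nonempty_iff_ne_empty]
    intro h0
    rw [h0, card_empty, Nat.cast_zero, mul_zero] at hpts
    have : 0 < κ * A.card := by positivity
    linarith
  obtain ⟨r, -, hrc⟩ := exists_class hP hPd hq (l := l) (t := t) ht2 hTne
    (fun a ha => (mem_filter.1 ha).2)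
  have h1 : κ / (2 * (d : ℝ) ^ 2) * A.card ≤
      ((A.filter (fun a => (q : ℤ) ^ t ∣ a - r)).card : ℝ) := by
    have h2 : (T.card : ℝ) ≤ d * ((T.filter (fun a => (q : ℤ) ^ t ∣ a - r)).card : ℝ) := by
      exact_mod_cast hrc
    have h3 : ((T.filter (fun a => (q : ℤ) ^ t ∣ a - r)).card : ℝ) ≤
        ((A.filter (fun a => (q : ℤ) ^ t ∣ a - r)).card : ℝ) := by
      exact_mod_cast card_le_card (filter_subset_filter _ (filter_subset _ _))
    rw [div_mul_eq_mul_div, div_le_iff₀ (by positivity)]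
    calc κ * A.card ≤ 2 * d * T.card := hpts
      _ ≤ 2 * d * (d * ((A.filter (fun a => (q : ℤ) ^ t ∣ a - r)).card : ℝ)) := by
          apply mul_le_mul_of_nonneg_left _ (by positivity)
          exact h2.trans (mul_le_mul_of_nonneg_left h3 hd0.le)
      _ = _ := by ring
  have hqt : q ^ t ≤ M := by
    by_contra h
    push Not at h
    exact absurd h1 (not_le.2 (hNP q t r hq h))
  have hqM : q ≤ M := by
    calc q = q ^ 1 := (pow_one q).symm
      _ ≤ q ^ t := Nat.pow_le_pow_right hq.pos ht0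
      _ ≤ M := hqt
  rw [if_pos hqM]
  have hlogq : 0 ≤ Real.log q := Real.log_natCast_nonneg _
  have h2 : (t : ℝ) * Real.log q ≤ Real.log M := by
    rw [← Real.log_pow]
    apply Real.log_le_log
    · have := hq.pos
      positivity
    · exact_mod_cast hqt
  calc (l : ℝ) * Real.log q ≤ ((d * t : ℕ) : ℝ) * Real.log q :=
        mul_le_mul_of_nonneg_right (by exact_mod_cast ht1) hlogq
    _ = d * (t * Real.log q) := by push_cast; ring
    _ ≤ d * Real.log M := mul_le_mul_of_nonneg_left h2 hd0.le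

theorem W0_bound {A : Finset ℤ} {d : ℕ} (hd : 1 ≤ d) (hA : 2 * d ≤ A.card) {κ : ℝ}
    (hκ0 : 0 < κ) (hκ1 : κ ≤ 1) {M : ℕ} (hM : 1 ≤ M) (hNP : NoPop (κ / (2 * (d : ℝ) ^ 2)) M A)
    {P : ℤ[X]} (hP : P.IsPrimitive) (hP1 : 1 ≤ P.natDegree) (hPd : P.natDegree ≤ d) :
    W0 κ (fz A P) ≤ (M + 1) * (d * Real.log M) := by
  classical
  have hdl : 0 ≤ (d : ℝ) * Real.log M := mul_nonneg (Nat.cast_nonneg _) (Real.log_natCast_nonneg _)
  have hprime : ∀ q ∈ prs (fz A P), q.Prime := by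
    intro q hq
    unfold prs at hq
    rw [mem_biUnion] at hq
    obtain ⟨x, _, hx⟩ := hq
    exact Nat.prime_of_mem_primeFactors hx
  unfold W0
  calc ∑ q ∈ prs (fz A P), (lev κ (fz A P) q : ℝ) * Real.log q
      ≤ ∑ q ∈ prs (fz A P), (if q ≤ M then d * Real.log M else 0) :=
        sum_le_sum fun q hq => lev_bound hd hA hκ0 hκ1 hM hNP hP hP1 hPd (hprime q hq)
    _ = (((prs (fz A P)).filter (fun q => q ≤ M)).card : ℝ) * (d * Real.log M) := by
        rw [← sum_filter, sum_const, nsmul_eq_mul]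
    _ ≤ (M + 1) * (d * Real.log M) := by
        apply mul_le_mul_of_nonneg_right _ hdl
        have h1 : (prs (fz A P)).filter (fun q => q ≤ M) ⊆ range (M + 1) := by
          intro q hq
          rw [mem_range]
          have := (mem_filter.1 hq).2
          omega
        have h2 := card_le_card h1
        rw [card_range] at h2
        exact_mod_cast h2

theorem exists_threshold (c V : ℝ) (hc : 0 < c) (n : ℕ) : ∃ n₀ : ℕ, n ≤ n₀ ∧
    ∀ N : ℕ, n₀ ≤ N → V < c * (Real.log N * Real.log (Real.log N)) := by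
  have h1 : Filter.Tendsto (fun N : ℕ => Real.log (N : ℝ)) Filter.atTop Filter.atTop :=
    Real.tendsto_log_atTop.comp tendsto_natCast_atTop_atTop
  have h2 : Filter.Tendsto (fun N : ℕ => Real.log (Real.log (N : ℝ))) Filter.atTop
      Filter.atTop := Real.tendsto_log_atTop.comp h1
  have h3 : Filter.Tendsto (fun N : ℕ => Real.log (N : ℝ) * Real.log (Real.log (N : ℝ)))
      Filter.atTop Filter.atTop := h1.atTop_mul_atTop₀ h2
  obtain ⟨n₁, hn₁⟩ := (Filter.tendsto_atTop.1 h3 (V / c + 1)).exists_forall_of_atTop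
  refine ⟨max n n₁, le_max_left _ _, fun N hN => ?_⟩
  have h4 := hn₁ N ((le_max_right _ _).trans hN)
  have h5 : V / c < Real.log (N : ℝ) * Real.log (Real.log (N : ℝ)) := by linarith
  rw [div_lt_iff₀ hc] at h5
  linarith

/-- the primitive part of a polynomial -/
theorem prim_facts {F : ℤ[X]} {d : ℕ} (hF1 : 1 ≤ F.natDegree) (hFd : F.natDegree ≤ d) :
    ∃ (P : ℤ[X]) (g : ℤ), g ≠ 0 ∧ P.IsPrimitive ∧ 1 ≤ P.natDegree ∧ P.natDegree ≤ d ∧
      ∀ a, F.eval a = g * P.eval a := by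
  have hFne : F ≠ 0 := by
    intro h
    rw [h, natDegree_zero] at hF1
    omega
  refine ⟨F.primPart, F.content, ?_, F.isPrimitive_primPart, ?_, ?_, ?_⟩
  · rw [Ne, content_eq_zero_iff]
    exact hFne
  · rw [natDegree_primPart]; exact hF1
  · rw [natDegree_primPart]; exact hFd
  · intro a
    conv_lhs => rw [F.eq_C_content_mul_primPart]
    rw [eval_mul, eval_C]

/-- **Products, sets without popular classes.** -/
theorem npProd (ε : ℝ) (d : ℕ) (hε : 0 < ε) (hd : 1 ≤ d) : ∃ κ : ℝ, 0 < κ ∧ κ ≤ 1 ∧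
    ∀ M : ℕ, 1 ≤ M → ∃ (c : ℝ) (n₀ : ℕ), 0 < c ∧ ∀ A : Finset ℤ, n₀ ≤ A.card → NoPop κ M A →
      ∀ F : ℤ[X], 1 ≤ F.natDegree → F.natDegree ≤ d → ∀ B : Finset ℂ, B.Nonempty →
        (0 : ℂ) ∉ B →
        c * ((A.card : ℝ) * (B.card : ℝ)) ^ (1 - ε) ≤ (((valProd F A B).erase 0).card : ℝ) := by
  classical
  have hdr : (1 : ℝ) ≤ d := by exact_mod_cast hd
  have hdr0 : (0 : ℝ) < d := by linarith
  set k : ℕ := ⌈1 / ε⌉₊ with hk
  have hk1' : 1 / ε ≤ (k : ℝ) := Nat.le_ceil _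
  have hk0' : 0 < k := by
    rw [hk, Nat.ceil_pos]
    positivity
  have hk1 : (1 : ℝ) ≤ k := by exact_mod_cast hk0'
  have hk0 : (0 : ℝ) < k := by linarith
  have hkε : 1 / (k : ℝ) ≤ ε := by
    rw [div_le_iff₀ hk0]
    rw [div_le_iff₀ hε] at hk1'
    linarith
  clear_value k
  obtain ⟨κ, C, c₁, hκ, hC, hc₁, hnz⟩ := nzMixT k 1 one_pos 1 one_pos le_rfl
  obtain ⟨κ₀, hκ₀, hκ₀le⟩ : ∃ κ₀ : ℝ, 0 < κ₀ ∧ ∀ l, κ₀ ≤ κ l := by
    have : Nonempty (Fin k) := ⟨⟨0, hk0'⟩⟩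
    obtain ⟨l₀, hl₀⟩ := Finite.exists_min κ
    exact ⟨κ l₀, (hκ l₀).1, hl₀⟩
  have hκ₀1 : κ₀ ≤ 1 := (hκ₀le ⟨0, hk0'⟩).trans (hκ _).2
  refine ⟨κ₀ / (2 * (d : ℝ) ^ 2), by positivity, ?_, ?_⟩
  · rw [div_le_one (by positivity)]
    have : (1 : ℝ) ≤ (d : ℝ) ^ 2 := one_le_pow₀ hdr
    linarith
  intro M hM
  obtain ⟨n₀, hn₀, hthr⟩ := exists_threshold c₁ (k * ((M + 1) * (d * Real.log M))) hc₁ (2 * d)
  refine ⟨(c₁ / (2 * d) ^ k / 2) ^ (1 / (k : ℝ)), n₀, by positivity, ?_⟩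
  intro A hA hNP F hF1 hFd B hB h0
  have hA2d : 2 * d ≤ A.card := hn₀.trans hA
  have hAne : A.Nonempty := card_pos.1 (by omega)
  have hN1 : (1 : ℝ) ≤ A.card := by exact_mod_cast card_pos.2 hAne
  obtain ⟨P, g, hg0, hPp, hP1, hPd, hFP⟩ := prim_facts hF1 hFd
  have hdd0 : (0 : ℝ) < 2 * d := by linarith
  have hVc : (A.card : ℝ) / (2 * d) ≤ ((fz A P).card : ℝ) := by
    have h1 := card_fz hP1 hPd hA2d
    have h2 : (A.card : ℝ) ≤ 2 * d * ((fz A P).card : ℝ) := by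
      exact_mod_cast h1
    rw [div_le_iff₀ hdd0]
    linarith
  have hVne : (fz A P).Nonempty := by
    rw [← card_pos]
    have h2 : 0 < (A.card : ℝ) / (2 * d) := div_pos (by linarith) hdd0
    have h3 : (0 : ℝ) < ((fz A P).card : ℝ) := by linarith
    exact_mod_cast h3
  have hlarge : c₁ * ((A.card : ℕ) : ℝ) ^ (-(1 : ℝ)) * ∏ _l : Fin k, ((fz A P).card : ℝ) ≤
      ((mixSet (fun _ : Fin k => fz A P)).card : ℝ) := by
    by_contra hlt
    push Not at hlt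
    obtain ⟨l, -, -, hl2⟩ := hnz A.card (fun _ : Fin k => fz A P) (fun _ => hVne)
      (fun _ => fz_zero A _) (fun _ => card_fz_le A _) hlt
    have h1 := W0b_const (κ l) (fz A P) l
    have h2 : NoPop (κ l / (2 * (d : ℝ) ^ 2)) M A := by
      apply hNP.mono
      exact div_le_div_of_nonneg_right (hκ₀le l) (by positivity)
    have h3 := W0_bound hd hA2d (hκ l).1 (hκ l).2 hM h2 hPp hP1 hPd
    have h4 := hthr A.card hA
    have h5 : (k : ℝ) * W0 (κ l) (fz A P) ≤ k * ((M + 1) * (d * Real.log M)) :=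
      mul_le_mul_of_nonneg_left h3 hk0.le
    linarith
  have hS := hProd_large (by linarith) hdd0 hc₁ hg0 hFP hVc hlarge
  have hne : ∃ s ∈ cvals F A, s ≠ 0 := by
    obtain ⟨b, hb⟩ := hVne
    have hb0 : b ≠ 0 := ne_of_mem_erase hb
    obtain ⟨a, ha, hab⟩ := mem_image.1 (mem_of_mem_erase hb)
    refine ⟨((F.eval a : ℤ) : ℂ), ?_, ?_⟩
    · unfold cvals
      exact mem_image_of_mem _ ha
    · rw [hFP a, hab]
      exact_mod_cast mul_ne_zero hg0 hb0
  have h1 := expand_erase k hk0' (cvals F A) hne (c₁ / (2 * d) ^ k) (A.card : ℝ) ε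
    (div_pos hc₁ (pow_pos hdd0 k)) hN1 hkε hS B h0 hB
  rw [valProd_eq]
  exact h1

/-- **Sums of reciprocals, sets without popular classes.** -/
theorem npSum (ε : ℝ) (d : ℕ) (hε : 0 < ε) (hd : 1 ≤ d) : ∃ κ : ℝ, 0 < κ ∧ κ ≤ 1 ∧
    ∀ M : ℕ, 1 ≤ M → ∃ (c : ℝ) (n₀ : ℕ), 0 < c ∧ ∀ A : Finset ℤ, n₀ ≤ A.card → NoPop κ M A →
      ∀ F : ℤ[X], 1 ≤ F.natDegree → F.natDegree ≤ d → ∀ B : Finset ℂ, B.Nonempty →
        c * ((A.card : ℝ) * (B.card : ℝ)) ^ (1 - ε) ≤ ((smm (rvals F A) B).card : ℝ) := by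
  classical
  have hdr : (1 : ℝ) ≤ d := by exact_mod_cast hd
  have hdr0 : (0 : ℝ) < d := by linarith
  set k : ℕ := ⌈1 / ε⌉₊ with hk
  have hk1' : 1 / ε ≤ (k : ℝ) := Nat.le_ceil _
  have hk0' : 0 < k := by
    rw [hk, Nat.ceil_pos]
    positivity
  have hk1 : (1 : ℝ) ≤ k := by exact_mod_cast hk0'
  have hk0 : (0 : ℝ) < k := by linarith
  have hkε : 1 / (k : ℝ) ≤ ε := by
    rw [div_le_iff₀ hk0]
    rw [div_le_iff₀ hε] at hk1'
    linarith
  clear_value k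
  obtain ⟨κ, C, c₁, hκ, hC, hc₁, hnz⟩ := nrMix k 1 one_pos 1 one_pos le_rfl
  obtain ⟨κ₀, hκ₀, hκ₀le⟩ : ∃ κ₀ : ℝ, 0 < κ₀ ∧ ∀ l, κ₀ ≤ κ l := by
    have : Nonempty (Fin k) := ⟨⟨0, hk0'⟩⟩
    obtain ⟨l₀, hl₀⟩ := Finite.exists_min κ
    exact ⟨κ l₀, (hκ l₀).1, hl₀⟩
  have hκ₀1 : κ₀ ≤ 1 := (hκ₀le ⟨0, hk0'⟩).trans (hκ _).2
  refine ⟨κ₀ / (2 * (d : ℝ) ^ 2), by positivity, ?_, ?_⟩
  · rw [div_le_one (by positivity)]
    have : (1 : ℝ) ≤ (d : ℝ) ^ 2 := one_le_pow₀ hdr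
    linarith
  intro M hM
  obtain ⟨n₀, hn₀, hthr⟩ := exists_threshold c₁ (k * ((M + 1) * (d * Real.log M))) hc₁ (2 * d)
  refine ⟨(c₁ / (2 * d) ^ k) ^ (1 / (k : ℝ)), n₀, by positivity, ?_⟩
  intro A hA hNP F hF1 hFd B hB
  have hA2d : 2 * d ≤ A.card := hn₀.trans hA
  have hAne : A.Nonempty := card_pos.1 (by omega)
  have hN1 : (1 : ℝ) ≤ A.card := by exact_mod_cast card_pos.2 hAne
  obtain ⟨P, g, hg0, hPp, hP1, hPd, hFP⟩ := prim_facts hF1 hFd
  have hdd0 : (0 : ℝ) < 2 * d := by linarith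
  have hVc : (A.card : ℝ) / (2 * d) ≤ ((fz A P).card : ℝ) := by
    have h1 := card_fz hP1 hPd hA2d
    have h2 : (A.card : ℝ) ≤ 2 * d * ((fz A P).card : ℝ) := by
      exact_mod_cast h1
    rw [div_le_iff₀ hdd0]
    linarith
  have hVne : (fz A P).Nonempty := by
    rw [← card_pos]
    have h2 : 0 < (A.card : ℝ) / (2 * d) := div_pos (by linarith) hdd0
    have h3 : (0 : ℝ) < ((fz A P).card : ℝ) := by linarith
    exact_mod_cast h3
  have hlarge : c₁ * ((A.card : ℕ) : ℝ) ^ (-(1 : ℝ)) * ∏ _l : Fin k, ((fz A P).card : ℝ) ≤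
      ((recSum (fun _ : Fin k => fz A P)).card : ℝ) := by
    by_contra hlt
    push Not at hlt
    obtain ⟨l, -, -, hl2⟩ := hnz A.card (fun _ : Fin k => fz A P) (fun _ => hVne)
      (fun _ => fz_zero A _) (fun _ => card_fz_le A _) hlt
    have h1 := W0b_const (κ l) (fz A P) l
    have h2 : NoPop (κ l / (2 * (d : ℝ) ^ 2)) M A := by
      apply hNP.mono
      exact div_le_div_of_nonneg_right (hκ₀le l) (by positivity)
    have h3 := W0_bound hd hA2d (hκ l).1 (hκ l).2 hM h2 hPp hP1 hPd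
    have h4 := hthr A.card hA
    have h5 : (k : ℝ) * W0 (κ l) (fz A P) ≤ k * ((M + 1) * (d * Real.log M)) :=
      mul_le_mul_of_nonneg_left h3 hk0.le
    linarith
  have hS := hSum_large (by linarith) hdd0 hc₁ hg0 hFP hVc hlarge
  exact expandAdd k hk0' (rvals F A) (c₁ / (2 * d) ^ k) (A.card : ℝ) ε
    (div_pos hc₁ (pow_pos hdd0 k)) hN1 hkε hS B hB

end Pool.Agent.Helper99.FS
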