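import Pool.Agent.Helper99.FS.Min
import Pool.Agent.Helper99.FS.Pol
import Pool.Agent.Helper99.FS.Defs2

/-!
# Project FS (MP_120218_co), P5: expansion of polynomial values on sets with few sums
-/

set_option autoImplicit false

open Finset Polynomial

namespace Pool.Agent.Helper99.FS

open Pool.Agent.Helper99.TR (valProd)
open Pool.Agent.Helper99.RT (rvals mem_rvals smm mem_smm)

/-- the set `(A - r) / m` -/
noncomputable def red (A : Finset ℤ) (r : ℤ) (m : ℕ) : Finset ℤ := A.image (fun a => (a - r) / m)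

theorem red_spec {A : Finset ℤ} {r : ℤ} {m : ℕ} (hr : r ∈ A) (hm : 0 < m)
    (hA : ∀ a ∈ A, ∀ a' ∈ A, (m : ℤ) ∣ a - a') {x : ℤ} :
    x ∈ red A r m ↔ r + m * x ∈ A := by
  unfold red
  rw [mem_image]
  have hm' : (m : ℤ) ≠ 0 := by exact_mod_cast hm.ne'
  constructor
  · rintro ⟨a, ha, rfl⟩
    have h1 : (m : ℤ) * ((a - r) / m) = a - r := Int.mul_ediv_cancel' (hA a ha r hr)
    rw [h1]
    have h2 : r + (a - r) = a := by ring
    rw [h2]
    exact ha
  · intro h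
    refine ⟨_, h, ?_⟩
    have h2 : r + (m : ℤ) * x - r = m * x := by ring
    rw [h2]
    exact Int.mul_ediv_cancel_left x hm'

theorem red_card {A : Finset ℤ} {r : ℤ} {m : ℕ} (hr : r ∈ A) (hm : 0 < m)
    (hA : ∀ a ∈ A, ∀ a' ∈ A, (m : ℤ) ∣ a - a') : (red A r m).card = A.card := by
  unfold red
  apply card_image_of_injOn
  intro a ha a' ha' h
  have h1 : (m : ℤ) * ((a - r) / m) = a - r := Int.mul_ediv_cancel' (hA a ha r hr)
  have h2 : (m : ℤ) * ((a' - r) / m) = a' - r := Int.mul_ediv_cancel' (hA a' ha' r hr)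
  simp only at h
  rw [h, h2] at h1
  linarith

/-- no popular classes after the reduction -/
theorem red_noPop {κ : ℝ} {M : ℕ} {τ : ℝ}
    (hZ : ∀ (A B : Finset ℤ) (m p l : ℕ) (r : ℤ), A.Nonempty → B.Nonempty → 0 < m → p.Prime →
      M < p ^ l → (∀ a ∈ A, ∀ a' ∈ A, (m : ℤ) ∣ a - a') → (∀ b ∈ B, ∀ b' ∈ B, (m : ℤ) ∣ b - b') →
      (∀ n : ℕ, 0 < n → m ∣ n → Star τ A B n) →
      κ * (A.card : ℝ) ≤ ((A.filter (fun a => ((m * p ^ l : ℕ) : ℤ) ∣ a - r)).card : ℝ) →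
      (∀ a ∈ A, ∀ a' ∈ A, ((m * p : ℕ) : ℤ) ∣ a - a') ∧
        (∀ b ∈ B, ∀ b' ∈ B, ((m * p : ℕ) : ℤ) ∣ b - b'))
    {A B : Finset ℤ} {m : ℕ} {r : ℤ} (hr : r ∈ A) (hB : B.Nonempty) (hm : 0 < m)
    (hA1 : ∀ a ∈ A, ∀ a' ∈ A, (m : ℤ) ∣ a - a') (hB1 : ∀ b ∈ B, ∀ b' ∈ B, (m : ℤ) ∣ b - b')
    (hS : ∀ n : ℕ, 0 < n → m ∣ n → Star τ A B n)
    (hp : ∀ p : ℕ, p.Prime → ¬ ((∀ a ∈ A, ∀ a' ∈ A, ((m * p : ℕ) : ℤ) ∣ a - a') ∧
        (∀ b ∈ B, ∀ b' ∈ B, ((m * p : ℕ) : ℤ) ∣ b - b'))) :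
    NoPop κ M (red A r m) := by
  intro q t r' hq hM
  by_contra hcon
  rw [not_lt] at hcon
  apply hp q hq
  refine hZ A B m q t (r + m * r') ⟨r, hr⟩ hB hm hq hM hA1 hB1 hS ?_
  rw [red_card hr hm hA1] at hcon
  refine hcon.trans ?_
  have hm' : (m : ℤ) ≠ 0 := by exact_mod_cast hm.ne'
  have h1 : ((red A r m).filter (fun a => (q : ℤ) ^ t ∣ a - r')).card ≤
      (A.filter (fun a => ((m * q ^ t : ℕ) : ℤ) ∣ a - (r + m * r'))).card := by
    apply card_le_card_of_injOn (fun x => r + m * x)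
    · intro x hx
      rw [mem_coe, mem_filter] at hx
      rw [mem_coe, mem_filter]
      refine ⟨(red_spec hr hm hA1).1 hx.1, ?_⟩
      obtain ⟨y, hy⟩ := hx.2
      refine ⟨y, ?_⟩
      push_cast
      linear_combination (m : ℤ) * hy
    · intro x _ y _ h
      simp only at h
      have h2 : (m : ℤ) * x = m * y := by linarith
      exact mul_left_cancel₀ hm' h2
  exact_mod_cast h1

theorem comp_facts {F : ℤ[X]} {m : ℕ} (hm : 0 < m) (r : ℤ) :
    (F.comp (C r + C (m : ℤ) * X)).natDegree = F.natDegree ∧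
    ∀ x : ℤ, (F.comp (C r + C (m : ℤ) * X)).eval x = F.eval (r + m * x) := by
  have hm' : (m : ℤ) ≠ 0 := by exact_mod_cast hm.ne'
  constructor
  · rw [natDegree_comp]
    have h1 : (C r + C (m : ℤ) * X).natDegree = 1 := by
      rw [add_comm]
      exact natDegree_linear hm'
    rw [h1, mul_one]
  · intro x
    rw [eval_comp]
    congr 1
    simp

theorem valProd_red {A₀ A : Finset ℤ} (hAA : A ⊆ A₀) {r : ℤ} {m : ℕ} (hr : r ∈ A) (hm : 0 < m)
    (hA : ∀ a ∈ A, ∀ a' ∈ A, (m : ℤ) ∣ a - a') (F : ℤ[X]) (B : Finset ℂ) :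
    valProd (F.comp (C r + C (m : ℤ) * X)) (red A r m) B ⊆ valProd F A₀ B := by
  classical
  intro y hy
  unfold valProd at hy ⊢
  rw [mem_image₂] at hy ⊢
  obtain ⟨x, hx, b, hb, rfl⟩ := hy
  refine ⟨r + m * x, hAA ((red_spec hr hm hA).1 hx), b, hb, ?_⟩
  rw [(comp_facts hm r).2 x]

theorem smm_red {A₀ A : Finset ℤ} (hAA : A ⊆ A₀) {r : ℤ} {m : ℕ} (hr : r ∈ A) (hm : 0 < m)
    (hA : ∀ a ∈ A, ∀ a' ∈ A, (m : ℤ) ∣ a - a') (F : ℤ[X]) (B : Finset ℂ) :
    smm (rvals (F.comp (C r + C (m : ℤ) * X)) (red A r m)) B ⊆ smm (rvals F A₀) B := by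
  classical
  intro y hy
  rw [mem_smm] at hy ⊢
  obtain ⟨s, hs, b, hb, rfl⟩ := hy
  refine ⟨s, ?_, b, hb, rfl⟩
  rw [mem_rvals] at hs ⊢
  obtain ⟨x, hx, h0, rfl⟩ := hs
  rw [(comp_facts hm r).2 x] at h0 ⊢
  exact ⟨r + m * x, hAA ((red_spec hr hm hA).1 hx), h0, rfl⟩

theorem rpow_chain {n a b c c₁ ε e : ℝ} (hc : 0 < c) (hcc : c ≤ c₁) (he0 : 0 < e) (he1 : e ≤ 1 / 2)
    (hε : 2 * e ≤ ε) (hn : 1 ≤ n) (hb : 1 ≤ b) (ha : n ^ (1 - e) ≤ a) :
    c * (n * b) ^ (1 - ε) ≤ c₁ * (a * b) ^ (1 - e) := by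
  have hn0 : 0 < n := by linarith
  have hb0 : 0 < b := by linarith
  have ha0 : 0 ≤ a := le_trans (by positivity) ha
  refine mul_le_mul hcc ?_ (by positivity) (by linarith)
  rw [Real.mul_rpow hn0.le hb0.le, Real.mul_rpow ha0 hb0.le]
  apply mul_le_mul
  · calc n ^ (1 - ε) ≤ n ^ ((1 - e) * (1 - e)) :=
          Real.rpow_le_rpow_of_exponent_le hn (by nlinarith)
      _ = (n ^ (1 - e)) ^ (1 - e) := Real.rpow_mul hn0.le _ _
      _ ≤ a ^ (1 - e) := Real.rpow_le_rpow (by positivity) ha (by linarith)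
  · exact Real.rpow_le_rpow_of_exponent_le hb (by linarith)
  · positivity
  · positivity

theorem small_case {n b c ε T : ℝ} {N : ℕ} (hc0 : 0 < c) (hc : c * (N : ℝ) ≤ 1) (hε : 0 < ε)
    (hn : 1 ≤ n) (hnN : n ≤ N) (hb : 1 ≤ b) (hT : b ≤ T) :
    c * (n * b) ^ (1 - ε) ≤ T := by
  have hn0 : 0 < n := by linarith
  have hb0 : 0 < b := by linarith
  have h1 : 1 ≤ n * b := one_le_mul_of_one_le_of_one_le hn hb
  have h2 : (n * b) ^ (1 - ε) ≤ n * b := by
    calc (n * b) ^ (1 - ε) ≤ (n * b) ^ (1 : ℝ) :=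
          Real.rpow_le_rpow_of_exponent_le h1 (by linarith)
      _ = n * b := Real.rpow_one _
  calc c * (n * b) ^ (1 - ε) ≤ c * (N * b) :=
        mul_le_mul_of_nonneg_left (h2.trans (mul_le_mul_of_nonneg_right hnN hb0.le)) hc0.le
    _ = (c * N) * b := by ring
    _ ≤ 1 * b := mul_le_mul_of_nonneg_right hc hb0.le
    _ ≤ T := by rw [one_mul]; exact hT

/-- **Expansion of polynomial values on sets with few sums** -/
theorem fewZ (hz : AtomsZ) : FSZ := by
  classical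
  intro ε d hε hd
  set e : ℝ := min ε 1 / 2 with hedef
  have he0 : 0 < e := by
    rw [hedef]
    have : 0 < min ε 1 := lt_min hε one_pos
    linarith
  have he1 : e ≤ 1 / 2 := by
    rw [hedef]
    have := min_le_right ε 1
    linarith
  have heε : 2 * e ≤ ε := by
    rw [hedef]
    have := min_le_left ε 1
    linarith
  obtain ⟨κ₁, hκ₁0, hκ₁1, H1⟩ := npProd e d he0 hd
  obtain ⟨κ₂, hκ₂0, hκ₂1, H2⟩ := npSum e d he0 hd
  have hκ0 : 0 < min κ₁ κ₂ := lt_min hκ₁0 hκ₂0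
  have hκ1 : min κ₁ κ₂ ≤ 1 := (min_le_left _ _).trans hκ₁1
  obtain ⟨τ, M, hτ0, hτ1, hM, hZ⟩ := hz (min κ₁ κ₂) hκ0 hκ1
  obtain ⟨c₁, n₁, hc₁, H1⟩ := H1 M hM
  obtain ⟨c₂, n₂, hc₂, H2⟩ := H2 M hM
  obtain ⟨N, hN2, hN⟩ : ∃ N : ℕ, 2 ≤ N ∧ ∀ n : ℕ, N ≤ n →
      ((max n₁ n₂ : ℕ) : ℝ) ≤ (n : ℝ) ^ (1 - e) := by
    have h1 : Filter.Tendsto (fun n : ℕ => (n : ℝ) ^ (1 - e)) Filter.atTop Filter.atTop :=
      (tendsto_rpow_atTop (by linarith : (0 : ℝ) < 1 - e)).comp tendsto_natCast_atTop_atTop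
    obtain ⟨N₁, hN₁⟩ := Filter.eventually_atTop.1
      (h1.eventually_ge_atTop ((max n₁ n₂ : ℕ) : ℝ))
    exact ⟨max N₁ 2, le_max_right _ _, fun n hn => hN₁ n ((le_max_left _ _).trans hn)⟩
  have hN0 : (0 : ℝ) < N := by
    have : 0 < N := by omega
    exact_mod_cast this
  set β : ℝ := 1 / τ with hβdef
  have hβ0 : 0 < β := by rw [hβdef]; positivity
  have hτβ : 1 / β = τ := by rw [hβdef]; field_simp
  set δ : ℝ := e * τ / 2 with hδdef
  have hδ0 : 0 < δ := by rw [hδdef]; positivity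
  have hβδ : β * δ = e / 2 := by rw [hβdef, hδdef]; field_simp
  set c : ℝ := min (min δ (1 / N)) (min c₁ c₂) with hcdef
  have hc0 : 0 < c := lt_min (lt_min hδ0 (by positivity)) (lt_min hc₁ hc₂)
  have hcδ : c ≤ δ := (min_le_left _ _).trans (min_le_left _ _)
  have hcN : c * (N : ℝ) ≤ 1 := by
    have h1 : c ≤ 1 / N := (min_le_left _ _).trans (min_le_right _ _)
    rw [le_div_iff₀ hN0] at h1
    exact h1
  have hcc₁ : c ≤ c₁ := (min_le_right _ _).trans (min_le_left _ _)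
  have hcc₂ : c ≤ c₂ := (min_le_right _ _).trans (min_le_right _ _)
  refine ⟨c, hc0, fun A hA hAA F hF1 hFd hFA B hB => ?_⟩
  have hAc1 : (1 : ℝ) ≤ A.card := by exact_mod_cast hA.card_pos
  have hBc1 : (1 : ℝ) ≤ B.card := by exact_mod_cast hB.card_pos
  rcases lt_or_ge A.card N with hlt | hge
  · -- small sets
    obtain ⟨a₀, ha₀, hFa₀⟩ := hFA
    have hF0 : (((F.eval a₀ : ℤ) : ℂ)) ≠ 0 := by exact_mod_cast hFa₀
    have hAN : (A.card : ℝ) ≤ N := by exact_mod_cast hlt.le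
    constructor
    · intro h0
      refine small_case hc0 hcN hε hAc1 hAN hBc1 ?_
      have h1 : B.card ≤ ((valProd F A B).erase 0).card := by
        apply card_le_card_of_injOn (fun b => ((F.eval a₀ : ℤ) : ℂ) * b)
        · intro b hb
          rw [mem_coe] at hb
          rw [mem_coe, mem_erase]
          refine ⟨mul_ne_zero hF0 (fun h => h0 (h ▸ hb)), ?_⟩
          unfold valProd
          rw [mem_image₂]
          exact ⟨a₀, ha₀, b, hb, rfl⟩
        · intro x _ y _ h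
          exact mul_left_cancel₀ hF0 h
      exact_mod_cast h1
    · refine small_case hc0 hcN hε hAc1 hAN hBc1 ?_
      have h1 : B.card ≤ (smm (rvals F A) B).card := by
        apply card_le_card_of_injOn (fun b => (((F.eval a₀ : ℤ) : ℂ))⁻¹ + b)
        · intro b hb
          rw [mem_coe] at hb
          rw [mem_coe, mem_smm]
          exact ⟨_, (mem_rvals _ _ _).2 ⟨a₀, ha₀, hFa₀, rfl⟩, b, hb, rfl⟩
        · intro x _ y _ h
          exact add_left_cancel h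
      exact_mod_cast h1
  · -- large sets
    have hA2 : (2 : ℝ) ≤ A.card := by exact_mod_cast hN2.trans hge
    set L : ℝ := Real.log A.card with hLdef
    have hL0 : 0 < L := Real.log_pos (by linarith)
    have hS : Real.log ((image₂ (fun a b => a + b) A A).card) ≤ (1 + δ) * L := by
      have hne : (image₂ (fun a b => a + b) A A).Nonempty := hA.image₂ hA
      have hpos : (0 : ℝ) < (image₂ (fun a b => a + b) A A).card := by
        exact_mod_cast hne.card_pos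
      calc Real.log ((image₂ (fun a b => a + b) A A).card)
          ≤ Real.log ((A.card : ℝ) ^ (1 + c)) := Real.log_le_log hpos hAA
        _ = (1 + c) * L := by rw [Real.log_rpow (by linarith)]
        _ ≤ (1 + δ) * L := mul_le_mul_of_nonneg_right (by linarith) hL0.le
    have hneg : FF β A A < 0 := by
      unfold FF
      have h1 : HS A A ≤ (1 + δ) * L := (HS_le hA hA).trans hS
      have h2 : β * HS A A ≤ β * ((1 + δ) * L) := mul_le_mul_of_nonneg_left h1 hβ0.le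
      have h3 : β * ((1 + δ) * L) = (β + e / 2) * L := by rw [← hβδ]; ring
      rw [← hLdef]
      have h4 : e / 2 * L < L := by nlinarith
      nlinarith
    obtain ⟨A₁, B₁, m, hAA₁, hBA₁, hA₁, hB₁, hm, hFF, hmA, hmB, hStar, hmax⟩ :=
      exists_extremal hβ0 hA hneg
    rw [hτβ] at hStar
    have hcard := extremal_card hβ0 hA hA₁ hB₁ hBA₁ hFF hLdef.symm hS
    have hcard2 : (A.card : ℝ) ^ (1 - e) ≤ A₁.card := by
      have h1 : (1 - 2 * (β * δ)) * L = (1 - e) * L := by rw [hβδ]; ring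
      rw [h1] at hcard
      have hA₁0 : (0 : ℝ) < A₁.card := by exact_mod_cast hA₁.card_pos
      rw [← Real.log_le_log_iff (by positivity) hA₁0, Real.log_rpow (by linarith)]
      exact hcard
    obtain ⟨r, hr⟩ := id hA₁
    have hNP := red_noPop hZ hr hB₁ hm hmA hmB hStar hmax
    have hn : max n₁ n₂ ≤ (red A₁ r m).card := by
      rw [red_card hr hm hmA]
      have h1 := (hN A.card hge).trans hcard2
      exact_mod_cast h1
    have hdeg := (comp_facts (F := F) hm r).1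
    set G : ℤ[X] := F.comp (C r + C (m : ℤ) * X) with hG
    constructor
    · intro h0
      have h1 := H1 (red A₁ r m) ((le_max_left _ _).trans hn) (hNP.mono (min_le_left _ _)) G
        (by rw [hdeg]; exact hF1) (by rw [hdeg]; exact hFd) B hB h0
      rw [red_card hr hm hmA] at h1
      refine (rpow_chain hc0 hcc₁ he0 he1 heε hAc1 hBc1 hcard2).trans (h1.trans ?_)
      exact_mod_cast card_le_card (erase_subset_erase _ (valProd_red hAA₁ hr hm hmA F B))
    · have h1 := H2 (red A₁ r m) ((le_max_right _ _).trans hn) (hNP.mono (min_le_right _ _)) G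
        (by rw [hdeg]; exact hF1) (by rw [hdeg]; exact hFd) B hB
      rw [red_card hr hm hmA] at h1
      refine (rpow_chain hc0 hcc₂ he0 he1 heε hAc1 hBc1 hcard2).trans (h1.trans ?_)
      exact_mod_cast card_le_card (smm_red hAA₁ hr hm hmA F B)

end Pool.Agent.Helper99.FS
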