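import Pool.Agent.Helper57.FS.Atom
import Pool.Agent.Helper78.FS.AtomsZ
import Pool.Agent.Helper99.FS.Few

set_option autoImplicit false

namespace Pool.Agent.Helper99.FS

/-- the theorem for one polynomial, unconditional -/
theorem fewZU : FSZ := fewZ (Pool.Agent.Helper78.FS.atomsZ Pool.Agent.Helper57.FS.atomLemma)

end Pool.Agent.Helper99.FS
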