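import Pool.Agent.Helper99.FS.Defs2

/-!
# Project FS (MP_120218_co): the theorem on exceptional zeros together with sets with few sums
-/

set_option autoImplicit false

open Finset Polynomial

namespace Pool.Agent.Helper99.FS

open Pool.Agent.Helper99.TR (Adm adm_mono polyProd mem_polyProd TRZ)
open Pool.Agent.Helper99.RT (polyRec mem_polyRec RTZ both maps prodC sumC)

/-- everything together -/
theorem finalF (hP : TRZ) (hS : RTZ) (hK : FSK) (k d : ℕ) (hk : 1 ≤ k) (ε : ℝ) (hε : 0 < ε) :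
    ∃ (m : ℕ) (c : ℝ), 0 < c ∧
      (∀ A : Finset ℤ, A.Nonempty → ∃ Z : Finset ℂ, Z.card ≤ m ∧
        ∀ F : Fin k → ℤ[X], (∀ i, 1 ≤ (F i).natDegree ∧ (F i).natDegree ≤ d) →
          ((∀ i, (∀ j, |((F i).coeff j : ℝ)| ≤ (A.card : ℝ) ^ (c * Real.log (Real.log A.card))) ∧
              ∀ z ∈ Z, aeval z (F i) ≠ 0) ∨
            (((image₂ (fun a b => a + b) A A).card : ℝ) ≤ (A.card : ℝ) ^ (1 + c) ∧
              ∀ i, ∃ a ∈ A, (F i).eval a ≠ 0)) →
          ∀ B : Finset ℂ, B.Nonempty →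
            ((0 : ℂ) ∉ B →
              c * ((A.card : ℝ) ^ ((k : ℝ) - ε) * (B.card : ℝ) ^ (1 - ε)) ≤
                (((polyProd F A B).erase 0).card : ℝ)) ∧
            c * ((A.card : ℝ) ^ ((k : ℝ) - ε) * (B.card : ℝ) ^ (1 - ε)) ≤
              ((polyRec F A B).card : ℝ)) ∧
      ∀ (B : Finset ℤ) (A : Finset ℂ), B.Nonempty → A.Nonempty →
        (A.card : ℝ) ≤ (B.card : ℝ) ^ (1 + c) →
        ∀ (F : Fin (m + 1) → ℤ[X]) (t : Fin (m + 1) → ℂ), (∀ i, t i ≠ 0) →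
        (∀ i, Adm d ((B.card : ℝ) ^ (c * Real.log (Real.log B.card))) (F i)) →
        (∀ i j, i ≠ j → ∀ z : ℂ, ¬ (aeval z (F i) = 0 ∧ aeval z (F j) = 0)) →
        ((∀ i, ∀ b ∈ B, t i * (((F i).eval b : ℤ) : ℂ) ∈ A) →
          c * (A.card : ℝ) ^ ((k : ℝ) - ε) ≤ ((prodC k A).card : ℝ)) ∧
        ((∀ i, ∀ b ∈ B, (F i).eval b ≠ 0 → t i / (((F i).eval b : ℤ) : ℂ) ∈ A) →
          c * (A.card : ℝ) ^ ((k : ℝ) - ε) ≤ ((prodC k A).card : ℝ) ∧
          c * (A.card : ℝ) ^ ((k : ℝ) - ε) ≤ ((sumC k A).card : ℝ)) := by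
  obtain ⟨m, c₀, hc₀, hm⟩ := both hP hS k d (ε / 2) (by positivity)
  obtain ⟨c₁, hc₁, hfew⟩ := hK k d hk ε hε
  have hk1 : (1 : ℝ) ≤ k := by exact_mod_cast hk
  set c : ℝ := min (min (min c₀ c₁) 1) (ε / (2 * k)) with hc
  have hek : 0 < ε / (2 * k) := by positivity
  have hc0 : 0 < c := lt_min (lt_min (lt_min hc₀ hc₁) one_pos) hek
  have hcc₀ : c ≤ c₀ := ((min_le_left _ _).trans (min_le_left _ _)).trans (min_le_left _ _)
  have hcc₁ : c ≤ c₁ := ((min_le_left _ _).trans (min_le_left _ _)).trans (min_le_right _ _)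
  have hc1 : c ≤ 1 := (min_le_left _ _).trans (min_le_right _ _)
  have hce : c ≤ ε / (2 * k) := min_le_right _ _
  have key := hm c hc0 hcc₀
  refine ⟨m, c, hc0, ?_, ?_⟩
  · intro A hA
    obtain ⟨Z, hZ, h⟩ := key A hA
    refine ⟨Z, hZ, fun F hd hF B hB => ?_⟩
    have hN1 : (1 : ℝ) ≤ A.card := by exact_mod_cast hA.card_pos
    have hB1 : (1 : ℝ) ≤ B.card := by exact_mod_cast hB.card_pos
    rcases hF with hF | ⟨hAA, hF⟩
    · have h1 := h F (fun i => ⟨(hd i).1, (hd i).2, (hF i).1⟩) (fun i => (hF i).2) B hB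
      have h2 : c * ((A.card : ℝ) ^ ((k : ℝ) - ε) * (B.card : ℝ) ^ (1 - ε)) ≤
          c * ((A.card : ℝ) ^ ((k : ℝ) - ε / 2) * (B.card : ℝ) ^ (1 - ε / 2)) := by
        apply mul_le_mul_of_nonneg_left _ hc0.le
        apply mul_le_mul _ _ (by positivity) (by positivity)
        · exact Real.rpow_le_rpow_of_exponent_le hN1 (by linarith)
        · exact Real.rpow_le_rpow_of_exponent_le hB1 (by linarith)
      exact ⟨fun h0 => h2.trans (h1.1 h0), h2.trans h1.2⟩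
    · have h1 := hfew A hA
        (hAA.trans (Real.rpow_le_rpow_of_exponent_le hN1 (by linarith))) F
        (fun i => ⟨(hd i).1, (hd i).2, hF i⟩) B hB
      have h2 : c * ((A.card : ℝ) ^ ((k : ℝ) - ε) * (B.card : ℝ) ^ (1 - ε)) ≤
          c₁ * ((A.card : ℝ) ^ ((k : ℝ) - ε) * (B.card : ℝ) ^ (1 - ε)) :=
        mul_le_mul_of_nonneg_right hcc₁ (by positivity)
      exact ⟨fun h0 => h2.trans (h1.1 h0), h2.trans h1.2⟩
  · intro B A hB hA hAB F t ht hF hFF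
    refine maps hk hε hc0 hc1 key B A hB hA F t ht hF hFF (hAB.trans ?_)
    have hB1 : (1 : ℝ) ≤ B.card := by exact_mod_cast hB.card_pos
    exact Real.rpow_le_rpow_of_exponent_le hB1 (by linarith)

end Pool.Agent.Helper99.FS
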