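import Pool.Agent.Helper99.FS.Grp
import Pool.Agent.Helper99.FS.FewU
import Pool.Agent.Helper99.FS.Defs2

/-!
# Projects TR, RT and FS (MP_120218_co) together, with groups of small diameter
-/

set_option autoImplicit false

open Finset Polynomial

namespace Pool.Agent.Helper99.FS

open Pool.Agent.Helper99.TR (Adm adm_mono polyProd mem_polyProd TRZ valProd iter)
open Pool.Agent.Helper99.RT (polyRec mem_polyRec RTZ both maps prodC sumC Both rvals smm iterA)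

/-- `k` polynomials from one polynomial, for one set -/
theorem kfold {k d : ℕ} {ε δ c : ℝ} (hδ0 : 0 < δ) (hδ1 : δ ≤ 1)
    (hδ2 : δ * (k : ℝ) ^ 2 ≤ ε) (hδ3 : (k : ℝ) * δ ≤ ε) (hc0 : 0 < c) (hc1 : c ≤ 1)
    {A : Finset ℤ} (hA : A.Nonempty)
    (hZ : ∀ F : ℤ[X], 1 ≤ F.natDegree → F.natDegree ≤ d → (∃ a ∈ A, F.eval a ≠ 0) →
      ∀ B : Finset ℂ, B.Nonempty →
      ((0 : ℂ) ∉ B →
        c * ((A.card : ℝ) * (B.card : ℝ)) ^ (1 - δ) ≤ (((valProd F A B).erase 0).card : ℝ)) ∧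
      c * ((A.card : ℝ) * (B.card : ℝ)) ^ (1 - δ) ≤ ((smm (rvals F A) B).card : ℝ))
    (F : Fin k → ℤ[X])
    (hF : ∀ i, 1 ≤ (F i).natDegree ∧ (F i).natDegree ≤ d ∧ ∃ a ∈ A, (F i).eval a ≠ 0)
    (B : Finset ℂ) (hB : B.Nonempty) :
    ((0 : ℂ) ∉ B →
      c ^ k * ((A.card : ℝ) ^ ((k : ℝ) - ε) * (B.card : ℝ) ^ (1 - ε)) ≤
        (((polyProd F A B).erase 0).card : ℝ)) ∧
    c ^ k * ((A.card : ℝ) ^ ((k : ℝ) - ε) * (B.card : ℝ) ^ (1 - ε)) ≤
      ((polyRec F A B).card : ℝ) := by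
  have hck : 0 < c ^ k := pow_pos hc0 k
  have hN1 : (1 : ℝ) ≤ A.card := by exact_mod_cast hA.card_pos
  have hB1 : (1 : ℝ) ≤ B.card := by exact_mod_cast hB.card_pos
  have hle : c ^ k * ((A.card : ℝ) ^ ((k : ℝ) - ε) * (B.card : ℝ) ^ (1 - ε)) ≤
      c ^ k * ((A.card : ℝ) ^ ((k : ℝ) - δ * (k : ℝ) ^ 2) * (B.card : ℝ) ^ (1 - (k : ℝ) * δ)) := by
    apply mul_le_mul_of_nonneg_left _ hck.le
    apply mul_le_mul _ _ (by positivity) (by positivity)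
    · exact Real.rpow_le_rpow_of_exponent_le hN1 (by linarith)
    · exact Real.rpow_le_rpow_of_exponent_le hB1 (by linarith)
  constructor
  · intro h0
    refine hle.trans ?_
    exact iter hA hc0 hc1 hδ0.le
      (fun G => 1 ≤ G.natDegree ∧ G.natDegree ≤ d ∧ ∃ a ∈ A, G.eval a ≠ 0)
      (fun G hG B' hB' h0' => (hZ G hG.1 hG.2.1 hG.2.2 B' hB').1 h0') hδ1 k F hF B hB h0
  · refine hle.trans ?_
    exact iterA hA hc0 hc1 hδ0.le
      (fun G => 1 ≤ G.natDegree ∧ G.natDegree ≤ d ∧ ∃ a ∈ A, G.eval a ≠ 0)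
      (fun G hG B' hB' => (hZ G hG.1 hG.2.1 hG.2.2 B' hB').2) hδ1 k F hF B hB

theorem Grp.mono {c c₀ : ℝ} (hc : 0 < c) (hcc : c ≤ c₀) {M : ℕ} {A : Finset ℤ} (hA : A.Nonempty)
    (h : Grp c M A) : Grp c₀ M A := by
  obtain ⟨𝒢, h1, h2, h3⟩ := h
  have hN1 : (1 : ℝ) ≤ A.card := by exact_mod_cast hA.card_pos
  refine ⟨𝒢, (Real.rpow_le_rpow_of_exponent_le hN1 (by linarith)).trans h1, ?_, h3⟩
  intro G hG
  obtain ⟨h4, h5, h6⟩ := h2 G hG
  refine ⟨h4, h5, fun a ha b hb => ?_⟩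
  have h7 := h6 a ha b hb
  rcases le_or_gt 0 (Real.log (Real.log (A.card : ℝ))) with h | h
  · exact h7.trans (Real.rpow_le_rpow_of_exponent_le hN1 (mul_le_mul_of_nonneg_right hcc h))
  · have hn2 : 1 < (A.card : ℝ) := by
      rcases eq_or_lt_of_le hN1 with h8 | h8
      · rw [← h8] at h
        simp at h
      · exact h8
    have h8 : (A.card : ℝ) ^ (c * Real.log (Real.log A.card)) < 1 :=
      Real.rpow_lt_one_of_one_lt_of_neg hn2 (mul_neg_of_pos_of_neg hc h)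
    have h9 : |((a - b : ℤ) : ℝ)| < 1 := h7.trans_lt h8
    have h10 : |a - b| < 1 := by exact_mod_cast h9
    have h11 : a - b = 0 := Int.abs_lt_one_iff.1 h10
    rw [h11, Int.cast_zero, abs_zero]
    positivity

theorem Both.mono {k d m m' : ℕ} {c ε : ℝ} (hm : m ≤ m') (h : Both k d m c ε) :
    Both k d m' c ε := by
  intro A hA
  obtain ⟨Z, hZ, h1⟩ := h A hA
  exact ⟨Z, hZ.trans hm, h1⟩

/-- everything together -/
theorem finalG (hP : TRZ) (hS : RTZ) (hF1 : FSZ) (k d : ℕ) (hk : 1 ≤ k) (ε : ℝ) (hε : 0 < ε) :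
    ∃ (m : ℕ) (c : ℝ), 0 < c ∧
      (∀ A : Finset ℤ, A.Nonempty → ∃ Z : Finset ℂ, Z.card ≤ m ∧
        ∀ F : Fin k → ℤ[X], (∀ i, 1 ≤ (F i).natDegree ∧ (F i).natDegree ≤ d) →
          ((∀ i, (∀ j, |((F i).coeff j : ℝ)| ≤ (A.card : ℝ) ^ (c * Real.log (Real.log A.card))) ∧
              ∀ z ∈ Z, aeval z (F i) ≠ 0) ∨
            ((((image₂ (fun a b => a + b) A A).card : ℝ) ≤ (A.card : ℝ) ^ (1 + c) ∨ Grp c m A) ∧
              ∀ i, ∃ a ∈ A, (F i).eval a ≠ 0)) →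
          ∀ B : Finset ℂ, B.Nonempty →
            ((0 : ℂ) ∉ B →
              c * ((A.card : ℝ) ^ ((k : ℝ) - ε) * (B.card : ℝ) ^ (1 - ε)) ≤
                (((polyProd F A B).erase 0).card : ℝ)) ∧
            c * ((A.card : ℝ) ^ ((k : ℝ) - ε) * (B.card : ℝ) ^ (1 - ε)) ≤
              ((polyRec F A B).card : ℝ)) ∧
      ∀ (B : Finset ℤ) (A : Finset ℂ), B.Nonempty → A.Nonempty →
        (A.card : ℝ) ≤ (B.card : ℝ) ^ (1 + c) →
        ∀ (F : Fin (m + 1) → ℤ[X]) (t : Fin (m + 1) → ℂ), (∀ i, t i ≠ 0) →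
        (∀ i, Adm d ((B.card : ℝ) ^ (c * Real.log (Real.log B.card))) (F i)) →
        (∀ i j, i ≠ j → ∀ z : ℂ, ¬ (aeval z (F i) = 0 ∧ aeval z (F j) = 0)) →
        ((∀ i, ∀ b ∈ B, t i * (((F i).eval b : ℤ) : ℂ) ∈ A) →
          c * (A.card : ℝ) ^ ((k : ℝ) - ε) ≤ ((prodC k A).card : ℝ)) ∧
        ((∀ i, ∀ b ∈ B, (F i).eval b ≠ 0 → t i / (((F i).eval b : ℤ) : ℂ) ∈ A) →
          c * (A.card : ℝ) ^ ((k : ℝ) - ε) ≤ ((prodC k A).card : ℝ) ∧
          c * (A.card : ℝ) ^ ((k : ℝ) - ε) ≤ ((sumC k A).card : ℝ)) := by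
  obtain ⟨m₀, c₀, hc₀, hm⟩ := both hP hS k d (ε / 2) (by positivity)
  have hk1 : (1 : ℝ) ≤ k := by exact_mod_cast hk
  have hk2 : (k : ℝ) ≤ (k : ℝ) ^ 2 := by nlinarith
  have hk0 : (0 : ℝ) < (k : ℝ) ^ 2 := by positivity
  set δ : ℝ := min 1 (ε / (k : ℝ) ^ 2) with hδdef
  have hδ0 : 0 < δ := lt_min one_pos (by positivity)
  have hδ1 : δ ≤ 1 := min_le_left _ _
  have hδ2 : δ * (k : ℝ) ^ 2 ≤ ε := by
    have h1 : δ ≤ ε / (k : ℝ) ^ 2 := min_le_right _ _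
    rw [le_div_iff₀ hk0] at h1
    exact h1
  have hδ3 : (k : ℝ) * δ ≤ ε := by nlinarith
  obtain ⟨c₁, hc₁, hfew⟩ := hF1 δ (max d 1) hδ0 (le_max_right _ _)
  obtain ⟨M₀, hgrp⟩ := grpZ δ (max d 1) hδ0 (le_max_right _ _)
  set m : ℕ := max m₀ M₀ with hmdef
  obtain ⟨c₂, hc₂, hgrp⟩ := hgrp m (le_max_right _ _)
  have hek : 0 < ε / (2 * k) := by positivity
  set c' : ℝ := min (min c₁ c₂) 1 with hc'def
  have hc'0 : 0 < c' := lt_min (lt_min hc₁ hc₂) one_pos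
  have hc'1 : c' ≤ 1 := min_le_right _ _
  have hc'c₁ : c' ≤ c₁ := (min_le_left _ _).trans (min_le_left _ _)
  have hc'c₂ : c' ≤ c₂ := (min_le_left _ _).trans (min_le_right _ _)
  have hck : 0 < c' ^ k := pow_pos hc'0 k
  have hck1 : c' ^ k ≤ c' := pow_le_of_le_one hc'0.le hc'1 (by omega)
  set c : ℝ := min (min (min c₀ (c' ^ k)) 1) (ε / (2 * k)) with hc
  have hc0 : 0 < c := lt_min (lt_min (lt_min hc₀ hck) one_pos) hek
  have hcc₀ : c ≤ c₀ := ((min_le_left _ _).trans (min_le_left _ _)).trans (min_le_left _ _)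
  have hcck : c ≤ c' ^ k := ((min_le_left _ _).trans (min_le_left _ _)).trans (min_le_right _ _)
  have hc1 : c ≤ 1 := (min_le_left _ _).trans (min_le_right _ _)
  have hce : c ≤ ε / (2 * k) := min_le_right _ _
  have hcc₁ : c ≤ c₁ := (hcck.trans hck1).trans hc'c₁
  have hcc₂ : c ≤ c₂ := (hcck.trans hck1).trans hc'c₂
  have key : Both k d m c (ε / 2) := Both.mono (le_max_left _ _) (hm c hc0 hcc₀)
  refine ⟨m, c, hc0, ?_, ?_⟩
  · intro A hA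
    obtain ⟨Z, hZ, h⟩ := key A hA
    refine ⟨Z, hZ, fun F hd hF B hB => ?_⟩
    have hN1 : (1 : ℝ) ≤ A.card := by exact_mod_cast hA.card_pos
    have hB1 : (1 : ℝ) ≤ B.card := by exact_mod_cast hB.card_pos
    rcases hF with hF | ⟨hAA, hF⟩
    · have h1 := h F (fun i => ⟨(hd i).1, (hd i).2, (hF i).1⟩) (fun i => (hF i).2) B hB
      have h2 : c * ((A.card : ℝ) ^ ((k : ℝ) - ε) * (B.card : ℝ) ^ (1 - ε)) ≤
          c * ((A.card : ℝ) ^ ((k : ℝ) - ε / 2) * (B.card : ℝ) ^ (1 - ε / 2)) := by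
        apply mul_le_mul_of_nonneg_left _ hc0.le
        apply mul_le_mul _ _ (by positivity) (by positivity)
        · exact Real.rpow_le_rpow_of_exponent_le hN1 (by linarith)
        · exact Real.rpow_le_rpow_of_exponent_le hB1 (by linarith)
      exact ⟨fun h0 => h2.trans (h1.1 h0), h2.trans h1.2⟩
    · have hmono : ∀ (c₃ : ℝ), c' ≤ c₃ → ∀ B' : Finset ℂ,
          c' * ((A.card : ℝ) * (B'.card : ℝ)) ^ (1 - δ) ≤
          c₃ * ((A.card : ℝ) * (B'.card : ℝ)) ^ (1 - δ) := fun c₃ h3 B' =>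
        mul_le_mul_of_nonneg_right h3 (by positivity)
      have hone : ∀ G : ℤ[X], 1 ≤ G.natDegree → G.natDegree ≤ d → (∃ a ∈ A, G.eval a ≠ 0) →
          ∀ B : Finset ℂ, B.Nonempty →
          ((0 : ℂ) ∉ B → c' * ((A.card : ℝ) * (B.card : ℝ)) ^ (1 - δ) ≤
            (((valProd G A B).erase 0).card : ℝ)) ∧
          c' * ((A.card : ℝ) * (B.card : ℝ)) ^ (1 - δ) ≤ ((smm (rvals G A) B).card : ℝ) := by
        intro G hG1 hGd hGA B' hB'
        rcases hAA with hAA | hAA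
        · have h1 := hfew A hA
            (hAA.trans (Real.rpow_le_rpow_of_exponent_le hN1 (by linarith))) G hG1
            (hGd.trans (le_max_left _ _)) hGA B' hB'
          exact ⟨fun h0 => (hmono c₁ hc'c₁ B').trans (h1.1 h0), (hmono c₁ hc'c₁ B').trans h1.2⟩
        · have h1 := hgrp A hA (hAA.mono hc0 hcc₂ hA) G hG1
            (hGd.trans (le_max_left _ _)) hGA B' hB'
          exact ⟨fun h0 => (hmono c₂ hc'c₂ B').trans (h1.1 h0), (hmono c₂ hc'c₂ B').trans h1.2⟩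
      have h1 := kfold hδ0 hδ1 hδ2 hδ3 hc'0 hc'1 hA hone F
        (fun i => ⟨(hd i).1, (hd i).2, hF i⟩) B hB
      have h2 : c * ((A.card : ℝ) ^ ((k : ℝ) - ε) * (B.card : ℝ) ^ (1 - ε)) ≤
          c' ^ k * ((A.card : ℝ) ^ ((k : ℝ) - ε) * (B.card : ℝ) ^ (1 - ε)) :=
        mul_le_mul_of_nonneg_right hcck (by positivity)
      exact ⟨fun h0 => h2.trans (h1.1 h0), h2.trans h1.2⟩
  · intro B A hB hA hAB F t ht hF hFF
    refine maps hk hε hc0 hc1 key B A hB hA F t ht hF hFF (hAB.trans ?_)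
    have hB1 : (1 : ℝ) ≤ B.card := by exact_mod_cast hB.card_pos
    exact Real.rpow_le_rpow_of_exponent_le hB1 (by linarith)

end Pool.Agent.Helper99.FS
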