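import Pool.Agent.Helper99.FS.Wt
import Pool.Agent.Helper99.FS.Few

/-!
# Project FS (MP_120218_co): sets with many disjoint groups of small diameter
-/

set_option autoImplicit false

open Finset Polynomial

namespace Pool.Agent.Helper99.FS

open Pool.Agent.Helper99.TR (valProd)
open Pool.Agent.Helper99.RT (rvals mem_rvals smm mem_smm)

/-- the prime powers which divide a non-zero number -/
theorem dvd_weight {S : Finset ℕ} (hS : ∀ p ∈ S, p.Prime) (l : ℕ → ℕ) {z : ℤ} (hz : z ≠ 0)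
    (hdvd : ∀ p ∈ S, (p : ℤ) ^ l p ∣ z) : ∑ p ∈ S, (l p : ℝ) * Real.log p ≤ Real.log |(z : ℝ)| := by
  classical
  have h1 : (∏ p ∈ S, (p : ℤ) ^ l p) ∣ z := by
    apply Finset.prod_dvd_of_coprime
    · intro p hp q hq hpq
      apply IsCoprime.pow
      rw [Nat.isCoprime_iff_coprime]
      exact (Nat.coprime_primes (hS p hp) (hS q hq)).2 hpq
    · exact hdvd
  have h2 : (∏ p ∈ S, (p : ℤ) ^ l p) ≤ |z| := Int.le_of_dvd (abs_pos.2 hz) ((dvd_abs _ _).2 h1)
  have hpos : ∀ p ∈ S, (0 : ℝ) < (p : ℝ) ^ l p := fun p hp => by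
    have := (hS p hp).pos
    positivity
  have h3 : ∑ p ∈ S, (l p : ℝ) * Real.log p = Real.log (∏ p ∈ S, (p : ℝ) ^ l p) := by
    rw [Real.log_prod (fun p hp => (hpos p hp).ne')]
    apply sum_congr rfl
    intro p _
    rw [Real.log_pow]
  rw [h3]
  apply Real.log_le_log (prod_pos hpos)
  have h4 : ((∏ p ∈ S, (p : ℤ) ^ l p : ℤ) : ℝ) ≤ ((|z| : ℤ) : ℝ) := by exact_mod_cast h2
  push_cast at h4
  exact h4

/-- the size of a disjoint union of groups -/
theorem card_union {M : ℕ} {𝒢 : Finset (Finset ℤ)} (hcard : ∀ G ∈ 𝒢, G.card = M)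
    (hdisj : ∀ G ∈ 𝒢, ∀ G' ∈ 𝒢, G ≠ G' → Disjoint G G') :
    ((𝒢.biUnion id).card : ℝ) = M * 𝒢.card := by
  have h0 : (𝒢.biUnion id).card = ∑ u ∈ 𝒢, (id u).card := by
    apply card_biUnion
    intro G hG G' hG' h
    exact hdisj G hG G' hG' h
  have h1 : ∑ u ∈ 𝒢, (id u).card = ∑ u ∈ 𝒢, M := sum_congr rfl fun G hG => hcard G hG
  rw [h0, h1, sum_const, smul_eq_mul]
  push_cast
  ring

/-- groups of small diameter: the popular classes have small weight -/
theorem wtC_groups {κ H : ℝ} {M : ℕ} (hκ : 0 < κ) (hM : 2 / κ ≤ M) (hH : 1 ≤ H)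
    {𝒢 : Finset (Finset ℤ)} (hne : 𝒢.Nonempty) (hcard : ∀ G ∈ 𝒢, G.card = M)
    (hdiam : ∀ G ∈ 𝒢, ∀ a ∈ G, ∀ b ∈ G, |((a - b : ℤ) : ℝ)| ≤ H)
    (hdisj : ∀ G ∈ 𝒢, ∀ G' ∈ 𝒢, G ≠ G' → Disjoint G G') :
    WtC κ (2 * (M : ℝ) ^ 2 * Real.log H / κ) (𝒢.biUnion id) := by
  classical
  have hM0 : (0 : ℝ) < M := lt_of_lt_of_le (by positivity) hM
  have hg0 : (0 : ℝ) < 𝒢.card := by exact_mod_cast hne.card_pos
  have hlogH : 0 ≤ Real.log H := Real.log_nonneg hH
  intro S l r hS hpop
  set cl : ℕ → ℤ → Prop := fun p a => (p : ℤ) ^ l p ∣ a - r p with hcl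
  set big : Finset ℤ → ℕ → Prop := fun G p => 2 ≤ (G.filter (cl p)).card with hbig
  have hw : ∀ p, 0 ≤ (l p : ℝ) * Real.log p := fun p =>
    mul_nonneg (Nat.cast_nonneg _) (Real.log_natCast_nonneg _)
  -- the size of the union
  have hunion : ((𝒢.biUnion id).card : ℝ) = M * 𝒢.card := card_union hcard hdisj
  -- many groups contain two elements of the popular class
  have h1 : ∀ p ∈ S, κ / 2 * 𝒢.card ≤ ((𝒢.filter (fun G => big G p)).card : ℝ) := by
    intro p hp
    have h2 := hpop p hp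
    have h3 : (((𝒢.biUnion id).filter (cl p)).card : ℝ) ≤
        ∑ G ∈ 𝒢, ((G.filter (cl p)).card : ℝ) := by
      have h4 : (𝒢.biUnion id).filter (cl p) ⊆ 𝒢.biUnion (fun G => G.filter (cl p)) := by
        intro a ha
        rw [mem_filter, mem_biUnion] at ha
        obtain ⟨⟨G, hG, haG⟩, hc⟩ := ha
        rw [mem_biUnion]
        exact ⟨G, hG, mem_filter.2 ⟨haG, hc⟩⟩
      exact_mod_cast (card_le_card h4).trans card_biUnion_le
    have h5 : ∀ G ∈ 𝒢, ((G.filter (cl p)).card : ℝ) ≤ 1 + if big G p then (M : ℝ) else 0 := by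
      intro G hG
      split_ifs with h
      · have h6 : (G.filter (cl p)).card ≤ M := (card_filter_le _ _).trans (hcard G hG).le
        have h7 : ((G.filter (cl p)).card : ℝ) ≤ M := by exact_mod_cast h6
        linarith
      · have h6 : (G.filter (cl p)).card ≤ 1 := by
          have h8 : ¬ 2 ≤ (G.filter (cl p)).card := h
          omega
        have h7 : ((G.filter (cl p)).card : ℝ) ≤ 1 := by exact_mod_cast h6
        linarith
    have h6 : ∑ G ∈ 𝒢, ((G.filter (cl p)).card : ℝ) ≤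
        𝒢.card + M * ((𝒢.filter (fun G => big G p)).card : ℝ) := by
      calc ∑ G ∈ 𝒢, ((G.filter (cl p)).card : ℝ)
          ≤ ∑ G ∈ 𝒢, (1 + if big G p then (M : ℝ) else 0) := sum_le_sum h5
        _ = _ := by
          rw [sum_add_distrib, sum_const, nsmul_eq_mul, mul_one, ← sum_filter, sum_const,
            nsmul_eq_mul]
          ring
    have h7 : κ * (M * 𝒢.card) ≤
        𝒢.card + M * ((𝒢.filter (fun G => big G p)).card : ℝ) := by
      rw [← hunion]
      exact h2.trans (h3.trans h6)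
    have h8 : 1 ≤ κ / 2 * M := by
      rw [div_le_iff₀ hκ] at hM
      linarith
    have h9 : (𝒢.card : ℝ) ≤ κ / 2 * M * 𝒢.card := le_mul_of_one_le_left hg0.le h8
    have h10 : M * (κ / 2 * 𝒢.card) ≤ M * ((𝒢.filter (fun G => big G p)).card : ℝ) := by
      have h11 : κ * (M * 𝒢.card) = M * (κ / 2 * 𝒢.card) + κ / 2 * M * 𝒢.card := by ring
      linarith
    exact le_of_mul_le_mul_left h10 hM0
  -- the weights of one group
  have h2 : ∀ G ∈ 𝒢, ∑ p ∈ S, (if big G p then (l p : ℝ) * Real.log p else 0) ≤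
      (M : ℝ) ^ 2 * Real.log H := by
    intro G hG
    calc ∑ p ∈ S, (if big G p then (l p : ℝ) * Real.log p else 0)
        ≤ ∑ p ∈ S, ∑ x ∈ G.offDiag,
            (if (p : ℤ) ^ l p ∣ x.1 - x.2 then (l p : ℝ) * Real.log p else 0) := by
          apply sum_le_sum
          intro p hp
          split_ifs with h
          · obtain ⟨a, b, ha, hb, hab⟩ := one_lt_card_iff.1 (lt_of_lt_of_le one_lt_two h)
            rw [mem_filter] at ha hb
            have hd : (p : ℤ) ^ l p ∣ a - b := by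
              have h3 := dvd_sub ha.2 hb.2
              have h4 : a - r p - (b - r p) = a - b := by ring
              rwa [h4] at h3
            have hm : (a, b) ∈ G.offDiag := mem_offDiag.2 ⟨ha.1, hb.1, hab⟩
            have h5 := single_le_sum (f := fun x : ℤ × ℤ =>
              (if (p : ℤ) ^ l p ∣ x.1 - x.2 then (l p : ℝ) * Real.log p else 0))
              (fun x _ => by
                show 0 ≤ (if (p : ℤ) ^ l p ∣ x.1 - x.2 then (l p : ℝ) * Real.log p else 0)
                split_ifs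
                · exact hw p
                · exact le_rfl) hm
            simp only [if_pos hd] at h5
            exact h5
          · apply sum_nonneg
            intro x _
            split_ifs
            · exact hw p
            · exact le_rfl
      _ = ∑ x ∈ G.offDiag, ∑ p ∈ S,
            (if (p : ℤ) ^ l p ∣ x.1 - x.2 then (l p : ℝ) * Real.log p else 0) := sum_comm
      _ ≤ ∑ x ∈ G.offDiag, Real.log H := by
          apply sum_le_sum
          intro x hx
          rw [mem_offDiag] at hx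
          rw [← sum_filter]
          have hz : x.1 - x.2 ≠ 0 := sub_ne_zero.2 hx.2.2
          refine (dvd_weight (fun p hp => hS p (mem_filter.1 hp).1) l hz
            (fun p hp => (mem_filter.1 hp).2)).trans ?_
          apply Real.log_le_log
          · rw [abs_pos]
            exact_mod_cast hz
          · exact hdiam G hG x.1 hx.1 x.2 hx.2.1
      _ = (G.offDiag.card : ℝ) * Real.log H := by rw [sum_const, nsmul_eq_mul]
      _ ≤ (M : ℝ) ^ 2 * Real.log H := by
          apply mul_le_mul_of_nonneg_right _ hlogH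
          rw [offDiag_card, hcard G hG]
          have h3 : M * M - M ≤ M ^ 2 := by
            rw [pow_two]
            exact Nat.sub_le _ _
          exact_mod_cast h3
  -- double counting
  have h3 : κ / 2 * 𝒢.card * ∑ p ∈ S, (l p : ℝ) * Real.log p ≤
      𝒢.card * ((M : ℝ) ^ 2 * Real.log H) := by
    calc κ / 2 * 𝒢.card * ∑ p ∈ S, (l p : ℝ) * Real.log p
        = ∑ p ∈ S, κ / 2 * 𝒢.card * ((l p : ℝ) * Real.log p) := by rw [mul_sum]
      _ ≤ ∑ p ∈ S, ((𝒢.filter (fun G => big G p)).card : ℝ) * ((l p : ℝ) * Real.log p) :=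
          sum_le_sum fun p hp => mul_le_mul_of_nonneg_right (h1 p hp) (hw p)
      _ = ∑ p ∈ S, ∑ G ∈ 𝒢, (if big G p then (l p : ℝ) * Real.log p else 0) := by
          apply sum_congr rfl
          intro p _
          rw [← sum_filter, sum_const, nsmul_eq_mul]
      _ = ∑ G ∈ 𝒢, ∑ p ∈ S, (if big G p then (l p : ℝ) * Real.log p else 0) := sum_comm
      _ ≤ ∑ _G ∈ 𝒢, (M : ℝ) ^ 2 * Real.log H := sum_le_sum h2
      _ = 𝒢.card * ((M : ℝ) ^ 2 * Real.log H) := by rw [sum_const, nsmul_eq_mul]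
  rw [le_div_iff₀ hκ]
  have h4 : 𝒢.card * (κ / 2 * ∑ p ∈ S, (l p : ℝ) * Real.log p) ≤
      𝒢.card * ((M : ℝ) ^ 2 * Real.log H) := by
    have h5 : 𝒢.card * (κ / 2 * ∑ p ∈ S, (l p : ℝ) * Real.log p) =
      κ / 2 * 𝒢.card * ∑ p ∈ S, (l p : ℝ) * Real.log p := by ring
    rw [h5]
    exact h3
  have h5 := le_of_mul_le_mul_left h4 hg0
  linarith

/-- `A` contains `|A| ^ (1 - c)` disjoint `M`-element sets of diameter at most
`|A| ^ (c log log |A|)` -/
def Grp (c : ℝ) (M : ℕ) (A : Finset ℤ) : Prop :=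
  ∃ 𝒢 : Finset (Finset ℤ), (A.card : ℝ) ^ (1 - c) ≤ (𝒢.card : ℝ) ∧
    (∀ G ∈ 𝒢, G ⊆ A ∧ G.card = M ∧ ∀ a ∈ G, ∀ b ∈ G,
      |((a - b : ℤ) : ℝ)| ≤ (A.card : ℝ) ^ (c * Real.log (Real.log A.card))) ∧
    ∀ G ∈ 𝒢, ∀ G' ∈ 𝒢, G ≠ G' → Disjoint G G'

theorem valProd_mono {A' A : Finset ℤ} (h : A' ⊆ A) (F : ℤ[X]) (B : Finset ℂ) :
    valProd F A' B ⊆ valProd F A B := by
  classical
  intro y hy
  unfold valProd at hy ⊢
  rw [mem_image₂] at hy ⊢
  obtain ⟨x, hx, b, hb, rfl⟩ := hy
  exact ⟨x, h hx, b, hb, rfl⟩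

theorem smm_mono {A' A : Finset ℤ} (h : A' ⊆ A) (F : ℤ[X]) (B : Finset ℂ) :
    smm (rvals F A') B ⊆ smm (rvals F A) B := by
  classical
  intro y hy
  rw [mem_smm] at hy ⊢
  obtain ⟨s, hs, b, hb, rfl⟩ := hy
  refine ⟨s, ?_, b, hb, rfl⟩
  rw [mem_rvals] at hs ⊢
  obtain ⟨x, hx, h0, rfl⟩ := hs
  exact ⟨x, h hx, h0, rfl⟩

/-- the trivial bounds -/
theorem triv_bounds {A : Finset ℤ} {F : ℤ[X]} (hFA : ∃ a ∈ A, F.eval a ≠ 0) (B : Finset ℂ) :
    ((0 : ℂ) ∉ B → (B.card : ℝ) ≤ (((valProd F A B).erase 0).card : ℝ)) ∧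
      (B.card : ℝ) ≤ ((smm (rvals F A) B).card : ℝ) := by
  classical
  obtain ⟨a₀, ha₀, hFa₀⟩ := hFA
  have hF0 : (((F.eval a₀ : ℤ) : ℂ)) ≠ 0 := by exact_mod_cast hFa₀
  constructor
  · intro h0
    have h1 : B.card ≤ ((valProd F A B).erase 0).card := by
      apply card_le_card_of_injOn (fun b => ((F.eval a₀ : ℤ) : ℂ) * b)
      · intro b hb
        rw [mem_coe] at hb
        rw [mem_coe, mem_erase]
        refine ⟨mul_ne_zero hF0 (fun h => h0 (h ▸ hb)), ?_⟩
        unfold valProd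
        rw [mem_image₂]
        exact ⟨a₀, ha₀, b, hb, rfl⟩
      · intro x _ y _ h
        exact mul_left_cancel₀ hF0 h
    exact_mod_cast h1
  · have h1 : B.card ≤ (smm (rvals F A) B).card := by
      apply card_le_card_of_injOn (fun b => (((F.eval a₀ : ℤ) : ℂ))⁻¹ + b)
      · intro b hb
        rw [mem_coe] at hb
        rw [mem_coe, mem_smm]
        exact ⟨_, (mem_rvals _ _ _).2 ⟨a₀, ha₀, hFa₀, rfl⟩, b, hb, rfl⟩
      · intro x _ y _ h
        exact add_left_cancel h
    exact_mod_cast h1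

/-- **Expansion of polynomial values on sets with many groups of small diameter** -/
theorem grpZ (ε : ℝ) (d : ℕ) (hε : 0 < ε) (hd : 1 ≤ d) : ∃ M₀ : ℕ, ∀ M : ℕ, M₀ ≤ M →
    ∃ c : ℝ, 0 < c ∧ ∀ A : Finset ℤ, A.Nonempty → Grp c M A →
    ∀ F : ℤ[X], 1 ≤ F.natDegree → F.natDegree ≤ d → (∃ a ∈ A, F.eval a ≠ 0) →
    ∀ B : Finset ℂ, B.Nonempty →
      ((0 : ℂ) ∉ B →
        c * ((A.card : ℝ) * (B.card : ℝ)) ^ (1 - ε) ≤ (((valProd F A B).erase 0).card : ℝ)) ∧
      c * ((A.card : ℝ) * (B.card : ℝ)) ^ (1 - ε) ≤ ((smm (rvals F A) B).card : ℝ) := by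
  classical
  set e : ℝ := min ε 1 / 2 with hedef
  have he0 : 0 < e := by
    rw [hedef]
    have : 0 < min ε 1 := lt_min hε one_pos
    linarith
  have he1 : e ≤ 1 / 2 := by
    rw [hedef]
    have := min_le_right ε 1
    linarith
  have heε : 2 * e ≤ ε := by
    rw [hedef]
    have := min_le_left ε 1
    linarith
  obtain ⟨κ₁, c₁, n₁, hκ₁0, hκ₁1, hc₁, H1⟩ := wtProd e d he0 hd
  obtain ⟨κ₂, c₂, n₂, hκ₂0, hκ₂1, hc₂, H2⟩ := wtSum e d he0 hd
  set κ : ℝ := min κ₁ κ₂ with hκdef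
  have hκ0 : 0 < κ := lt_min hκ₁0 hκ₂0
  refine ⟨⌈2 / κ⌉₊, fun M hM => ?_⟩
  have hMκ : 2 / κ ≤ (M : ℝ) := (Nat.le_ceil _).trans (by exact_mod_cast hM)
  have hM0 : (0 : ℝ) < M := lt_of_lt_of_le (by positivity) hMκ
  obtain ⟨N, hN2, hN⟩ : ∃ N : ℕ, 3 ≤ N ∧ ∀ n : ℕ, N ≤ n →
      ((max n₁ n₂ : ℕ) : ℝ) ≤ (n : ℝ) ^ (1 - e) ∧ 4 ≤ Real.log n := by
    have h1 : Filter.Tendsto (fun n : ℕ => (n : ℝ) ^ (1 - e)) Filter.atTop Filter.atTop :=
      (tendsto_rpow_atTop (by linarith : (0 : ℝ) < 1 - e)).comp tendsto_natCast_atTop_atTop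
    have h2 : Filter.Tendsto (fun n : ℕ => Real.log (n : ℝ)) Filter.atTop Filter.atTop :=
      Real.tendsto_log_atTop.comp tendsto_natCast_atTop_atTop
    obtain ⟨N₁, hN₁⟩ := Filter.eventually_atTop.1
      ((h1.eventually_ge_atTop ((max n₁ n₂ : ℕ) : ℝ)).and (h2.eventually_ge_atTop 4))
    exact ⟨max N₁ 3, le_max_right _ _, fun n hn => hN₁ n ((le_max_left _ _).trans hn)⟩
  have hN0 : (0 : ℝ) < N := by
    have : 0 < N := by omega
    exact_mod_cast this
  set c₃ : ℝ := κ * min c₁ c₂ / (8 * (M : ℝ) ^ 2) with hc₃def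
  have hc₃ : 0 < c₃ := by
    have : 0 < min c₁ c₂ := lt_min hc₁ hc₂
    positivity
  set c : ℝ := min (min e (1 / N)) (min (min c₁ c₂) c₃) with hcdef
  have hc0 : 0 < c :=
    lt_min (lt_min he0 (by positivity)) (lt_min (lt_min hc₁ hc₂) hc₃)
  have hce : c ≤ e := (min_le_left _ _).trans (min_le_left _ _)
  have hcN : c * (N : ℝ) ≤ 1 := by
    have h1 : c ≤ 1 / N := (min_le_left _ _).trans (min_le_right _ _)
    rw [le_div_iff₀ hN0] at h1
    exact h1
  have hcc₁ : c ≤ c₁ := (min_le_right _ _).trans ((min_le_left _ _).trans (min_le_left _ _))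
  have hcc₂ : c ≤ c₂ := (min_le_right _ _).trans ((min_le_left _ _).trans (min_le_right _ _))
  have hcc₃ : c ≤ c₃ := (min_le_right _ _).trans (min_le_right _ _)
  refine ⟨c, hc0, fun A hA hG F hF1 hFd hFA B hB => ?_⟩
  have hAc1 : (1 : ℝ) ≤ A.card := by exact_mod_cast hA.card_pos
  have hBc1 : (1 : ℝ) ≤ B.card := by exact_mod_cast hB.card_pos
  rcases lt_or_ge A.card N with hlt | hge
  · have hAN : (A.card : ℝ) ≤ N := by exact_mod_cast hlt.le
    have ht := triv_bounds hFA B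
    exact ⟨fun h0 => small_case hc0 hcN hε hAc1 hAN hBc1 (ht.1 h0),
      small_case hc0 hcN hε hAc1 hAN hBc1 ht.2⟩
  · obtain ⟨hn12, hL4⟩ := hN A.card hge
    obtain ⟨𝒢, hcard𝒢, hG, hdisj⟩ := hG
    set L : ℝ := Real.log A.card with hLdef
    have hL0 : 0 < L := by linarith
    have hlogL : 0 < Real.log L := Real.log_pos (by linarith)
    have hg0 : (0 : ℝ) < 𝒢.card := lt_of_lt_of_le (by positivity) hcard𝒢
    have hgne : 𝒢.Nonempty := by
      rw [← card_pos]
      exact_mod_cast hg0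
    set A' : Finset ℤ := 𝒢.biUnion id with hA'def
    have hA'A : A' ⊆ A := by
      intro a ha
      rw [hA'def, mem_biUnion] at ha
      obtain ⟨G, hG', haG⟩ := ha
      exact (hG G hG').1 haG
    have hunion : (A'.card : ℝ) = M * 𝒢.card := card_union (fun G hG' => (hG G hG').2.1) hdisj
    have hM1 : (1 : ℝ) ≤ M := by
      have : 0 < M := by exact_mod_cast hM0
      exact_mod_cast this
    have hA'1 : (A.card : ℝ) ^ (1 - c) ≤ A'.card := by
      rw [hunion]
      exact hcard𝒢.trans (le_mul_of_one_le_left hg0.le hM1)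
    have hA'e : (A.card : ℝ) ^ (1 - e) ≤ A'.card :=
      (Real.rpow_le_rpow_of_exponent_le hAc1 (by linarith)).trans hA'1
    have hn' : max n₁ n₂ ≤ A'.card := by exact_mod_cast hn12.trans hA'e
    have hA'0 : (0 : ℝ) < A'.card := lt_of_lt_of_le (by positivity) hA'1
    have hL' : L / 2 ≤ Real.log A'.card := by
      calc L / 2 ≤ (1 - c) * L := by nlinarith
        _ = Real.log ((A.card : ℝ) ^ (1 - c)) := by rw [Real.log_rpow (by linarith)]
        _ ≤ Real.log A'.card := Real.log_le_log (by positivity) hA'1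
    have hLL' : Real.log L / 2 ≤ Real.log (Real.log A'.card) := by
      calc Real.log L / 2 ≤ Real.log (L / 2) := by
            rw [Real.log_div hL0.ne' two_ne_zero]
            have h1 : 2 * Real.log 2 ≤ Real.log L := by
              have h2 : Real.log 4 ≤ Real.log L := Real.log_le_log (by norm_num) hL4
              have h3 : Real.log 4 = 2 * Real.log 2 := by
                rw [show (4 : ℝ) = 2 ^ 2 by norm_num, Real.log_pow]
                norm_num
              linarith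
            linarith
        _ ≤ Real.log (Real.log A'.card) := Real.log_le_log (by positivity) hL'
    set H : ℝ := (A.card : ℝ) ^ (c * Real.log (Real.log A.card)) with hHdef
    have hH1 : 1 ≤ H := Real.one_le_rpow hAc1 (mul_nonneg hc0.le hlogL.le)
    have hlogH : Real.log H = c * Real.log L * L := by
      rw [hHdef, Real.log_rpow (by linarith)]
    have hW := wtC_groups hκ0 hMκ hH1 hgne (fun G hG' => (hG G hG').2.1)
      (fun G hG' => (hG G hG').2.2) hdisj
    have hR : 2 * (M : ℝ) ^ 2 * Real.log H / κ ≤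
        min c₁ c₂ * (Real.log A'.card * Real.log (Real.log A'.card)) := by
      have h1 : Real.log L / 2 * (L / 2) ≤ Real.log A'.card * Real.log (Real.log A'.card) := by
        rw [mul_comm (Real.log A'.card)]
        exact mul_le_mul hLL' hL' (by positivity) (le_trans (by positivity) hLL')
      have h2 : 2 * (M : ℝ) ^ 2 * Real.log H / κ ≤ min c₁ c₂ * (Real.log L / 2 * (L / 2)) := by
        rw [hlogH, div_le_iff₀ hκ0]
        have h3 : c * (8 * (M : ℝ) ^ 2) ≤ κ * min c₁ c₂ := by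
          rw [hc₃def, le_div_iff₀ (by positivity)] at hcc₃
          exact hcc₃
        have h4 : 0 ≤ Real.log L * L := by positivity
        nlinarith [mul_le_mul_of_nonneg_right h3 h4]
      have h3 : 0 ≤ min c₁ c₂ := le_min hc₁.le hc₂.le
      exact h2.trans (mul_le_mul_of_nonneg_left h1 h3)
    have hpos' : 0 ≤ Real.log A'.card * Real.log (Real.log A'.card) :=
      mul_nonneg (le_trans (by positivity) hL') (le_trans (by positivity) hLL')
    have hW1 : WtC κ₁ (c₁ * (Real.log A'.card * Real.log (Real.log A'.card))) A' :=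
      hW.mono (min_le_left _ _)
        (hR.trans (mul_le_mul_of_nonneg_right (min_le_left _ _) hpos'))
    have hW2 : WtC κ₂ (c₂ * (Real.log A'.card * Real.log (Real.log A'.card))) A' :=
      hW.mono (min_le_right _ _)
        (hR.trans (mul_le_mul_of_nonneg_right (min_le_right _ _) hpos'))
    constructor
    · intro h0
      have h1 := H1 A' ((le_max_left _ _).trans hn') hW1 F hF1 hFd B hB h0
      refine (rpow_chain hc0 hcc₁ he0 he1 heε hAc1 hBc1 hA'e).trans (h1.trans ?_)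
      exact_mod_cast card_le_card (erase_subset_erase _ (valProd_mono hA'A F B))
    · have h1 := H2 A' ((le_max_right _ _).trans hn') hW2 F hF1 hFd B hB
      refine (rpow_chain hc0 hcc₂ he0 he1 heε hAc1 hBc1 hA'e).trans (h1.trans ?_)
      exact_mod_cast card_le_card (smm_mono hA'A F B)

end Pool.Agent.Helper99.FS
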