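import Pool.Agent.Helper99.FS.Defs2

/-!
# Project FS (MP_120218_co), P6: `k` polynomials
-/

set_option autoImplicit false

open Finset Polynomial

namespace Pool.Agent.Helper99.FS

open Pool.Agent.Helper99.TR (valProd polyProd iter)
open Pool.Agent.Helper99.RT (rvals smm polyRec iterA)

/-- `k` polynomials from one polynomial -/
theorem fsk (h : FSZ) : FSK := by
  intro k d hk ε hε
  rcases Nat.eq_zero_or_pos d with rfl | hd
  · refine ⟨1, one_pos, fun A _ _ F hF B _ => ?_⟩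
    exact absurd (hF ⟨0, hk⟩).2.1 (by have := (hF ⟨0, hk⟩).1; omega)
  have hk1 : (1 : ℝ) ≤ k := by exact_mod_cast hk
  have hk2 : (k : ℝ) ≤ (k : ℝ) ^ 2 := by nlinarith
  have hk0 : (0 : ℝ) < (k : ℝ) ^ 2 := by positivity
  set δ : ℝ := min 1 (ε / (k : ℝ) ^ 2) with hδdef
  have hδ0 : 0 < δ := lt_min one_pos (by positivity)
  have hδ1 : δ ≤ 1 := min_le_left _ _
  have hδ2 : δ * (k : ℝ) ^ 2 ≤ ε := by
    have h1 : δ ≤ ε / (k : ℝ) ^ 2 := min_le_right _ _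
    rw [le_div_iff₀ hk0] at h1
    exact h1
  have hδ3 : (k : ℝ) * δ ≤ ε := by nlinarith
  obtain ⟨c₀, hc₀, hZ⟩ := h δ d hδ0 hd
  set c : ℝ := min c₀ 1 with hcdef
  have hc0 : 0 < c := lt_min hc₀ one_pos
  have hcc₀ : c ≤ c₀ := min_le_left _ _
  have hc1 : c ≤ 1 := min_le_right _ _
  have hck : 0 < c ^ k := pow_pos hc0 k
  have hck1 : c ^ k ≤ c := pow_le_of_le_one hc0.le hc1 (by omega)
  refine ⟨c ^ k, hck, fun A hA hAA F hF B hB => ?_⟩
  have hN1 : (1 : ℝ) ≤ A.card := by exact_mod_cast hA.card_pos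
  have hB1 : (1 : ℝ) ≤ B.card := by exact_mod_cast hB.card_pos
  have hAA' : ((image₂ (fun a b => a + b) A A).card : ℝ) ≤ (A.card : ℝ) ^ (1 + c₀) :=
    hAA.trans (Real.rpow_le_rpow_of_exponent_le hN1 (by linarith))
  have hle : c ^ k * ((A.card : ℝ) ^ ((k : ℝ) - ε) * (B.card : ℝ) ^ (1 - ε)) ≤
      c ^ k * ((A.card : ℝ) ^ ((k : ℝ) - δ * (k : ℝ) ^ 2) * (B.card : ℝ) ^ (1 - (k : ℝ) * δ)) := by
    apply mul_le_mul_of_nonneg_left _ hck.le
    apply mul_le_mul _ _ (by positivity) (by positivity)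
    · exact Real.rpow_le_rpow_of_exponent_le hN1 (by linarith)
    · exact Real.rpow_le_rpow_of_exponent_le hB1 (by linarith)
  have hmono : ∀ B' : Finset ℂ, c * ((A.card : ℝ) * (B'.card : ℝ)) ^ (1 - δ) ≤
      c₀ * ((A.card : ℝ) * (B'.card : ℝ)) ^ (1 - δ) := fun B' =>
    mul_le_mul_of_nonneg_right hcc₀ (by positivity)
  constructor
  · intro h0
    refine hle.trans ?_
    exact iter hA hc0 hc1 hδ0.le
      (fun G => 1 ≤ G.natDegree ∧ G.natDegree ≤ d ∧ ∃ a ∈ A, G.eval a ≠ 0)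
      (fun G hG B' hB' h0' => (hmono B').trans
        ((hZ A hA hAA' G hG.1 hG.2.1 hG.2.2 B' hB').1 h0')) hδ1 k F hF B hB h0
  · refine hle.trans ?_
    exact iterA hA hc0 hc1 hδ0.le
      (fun G => 1 ≤ G.natDegree ∧ G.natDegree ≤ d ∧ ∃ a ∈ A, G.eval a ≠ 0)
      (fun G hG B' hB' => (hmono B').trans
        ((hZ A hA hAA' G hG.1 hG.2.1 hG.2.2 B' hB').2)) hδ1 k F hF B hB

end Pool.Agent.Helper99.FS
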