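import Pool.Agent.Helper99.FS.Final2

set_option autoImplicit false

namespace Pool.Agent.Helper99.FS

open Finset Polynomial

/-- the final theorem from its ingredients -/
theorem result_of2 (hP : Pool.Agent.Helper99.TR.TRZ) (hS : Pool.Agent.Helper99.RT.RTZ) (hK : FSZ) :
    ∀ k d : ℕ, 1 ≤ k → ∀ ε : ℝ, 0 < ε → ∃ (m : ℕ) (c : ℝ), 0 < c ∧
      (∀ A : Finset ℤ, A.Nonempty → ∃ Z : Finset ℂ, Z.card ≤ m ∧
        ∀ F : Fin k → ℤ[X], (∀ i, 1 ≤ (F i).natDegree ∧ (F i).natDegree ≤ d) →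
          ((∀ i, (∀ j, |((F i).coeff j : ℝ)| ≤ (A.card : ℝ) ^ (c * Real.log (Real.log A.card))) ∧
              ∀ z ∈ Z, aeval z (F i) ≠ 0) ∨
            ((({s : ℤ | ∃ a ∈ A, ∃ b ∈ A, s = a + b}.ncard : ℝ) ≤ (A.card : ℝ) ^ (1 + c) ∨
              ∃ S : Finset (Finset ℤ), (A.card : ℝ) ^ (1 - c) ≤ (S.card : ℝ) ∧
                (∀ G ∈ S, G ⊆ A ∧ G.card = m ∧ ∀ a ∈ G, ∀ b ∈ G,
                  |((a - b : ℤ) : ℝ)| ≤ (A.card : ℝ) ^ (c * Real.log (Real.log A.card))) ∧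
                ∀ G ∈ S, ∀ G' ∈ S, G ≠ G' → Disjoint G G') ∧
              ∀ i, ∃ a ∈ A, (F i).eval a ≠ 0)) →
          ∀ B : Finset ℂ, B.Nonempty →
            ((0 : ℂ) ∉ B →
              c * (A.card : ℝ) ^ ((k : ℝ) - ε) * (B.card : ℝ) ^ (1 - ε) ≤
                ({y : ℂ | ∃ a : Fin k → ℤ, (∀ i, a i ∈ A) ∧ ∃ b ∈ B,
                  y = (∏ i, (((F i).eval (a i) : ℤ) : ℂ)) * b}.ncard : ℝ)) ∧
            c * (A.card : ℝ) ^ ((k : ℝ) - ε) * (B.card : ℝ) ^ (1 - ε) ≤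
              ({y : ℂ | ∃ a : Fin k → ℤ, (∀ i, a i ∈ A ∧ (F i).eval (a i) ≠ 0) ∧ ∃ b ∈ B,
                y = (∑ i, 1 / (((F i).eval (a i) : ℤ) : ℂ)) + b}.ncard : ℝ)) ∧
      ∀ (B : Finset ℤ) (A : Finset ℂ), B.Nonempty → A.Nonempty →
        (A.card : ℝ) ≤ (B.card : ℝ) ^ (1 + c) →
        ∀ (F : Fin (m + 1) → ℤ[X]) (t : Fin (m + 1) → ℂ),
          (∀ i, 1 ≤ (F i).natDegree ∧ (F i).natDegree ≤ d ∧
            (∀ j, |((F i).coeff j : ℝ)| ≤ (B.card : ℝ) ^ (c * Real.log (Real.log B.card))) ∧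
            t i ≠ 0) →
          (∀ i j, i ≠ j → ∀ z : ℂ, ¬ (aeval z (F i) = 0 ∧ aeval z (F j) = 0)) →
          ((∀ i, ∀ b ∈ B, t i * (((F i).eval b : ℤ) : ℂ) ∈ A) →
            c * (A.card : ℝ) ^ ((k : ℝ) - ε) ≤
              ({y : ℂ | ∃ f : Fin k → ℂ, (∀ i, f i ∈ A) ∧ y = ∏ i, f i}.ncard : ℝ)) ∧
          ((∀ i, ∀ b ∈ B, (F i).eval b ≠ 0 → t i / (((F i).eval b : ℤ) : ℂ) ∈ A) →
            c * (A.card : ℝ) ^ ((k : ℝ) - ε) ≤
              ({y : ℂ | ∃ f : Fin k → ℂ, (∀ i, f i ∈ A) ∧ y = ∏ i, f i}.ncard : ℝ) ∧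
            c * (A.card : ℝ) ^ ((k : ℝ) - ε) ≤
              ({y : ℂ | ∃ f : Fin k → ℂ, (∀ i, f i ∈ A) ∧ y = ∑ i, f i}.ncard : ℝ)) := by
  intro k d hk ε hε
  obtain ⟨m, c, hc, h1, h2⟩ := finalG hP hS hK k d hk ε hε
  have hprod : ∀ A : Finset ℂ, {y : ℂ | ∃ f : Fin k → ℂ, (∀ i, f i ∈ A) ∧ y = ∏ i, f i} =
      (Pool.Agent.Helper99.RT.prodC k A : Set ℂ) := by
    intro A
    ext y
    constructor
    · rintro ⟨f, hf, rfl⟩
      exact mem_coe.2 (Pool.Agent.Helper99.RT.mem_prodC.2 ⟨f, hf, rfl⟩)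
    · intro hy
      obtain ⟨f, hf, hy2⟩ := Pool.Agent.Helper99.RT.mem_prodC.1 (mem_coe.1 hy)
      exact ⟨f, hf, hy2.symm⟩
  have hsum : ∀ A : Finset ℂ, {y : ℂ | ∃ f : Fin k → ℂ, (∀ i, f i ∈ A) ∧ y = ∑ i, f i} =
      (Pool.Agent.Helper99.RT.sumC k A : Set ℂ) := by
    intro A
    ext y
    constructor
    · rintro ⟨f, hf, rfl⟩
      exact mem_coe.2 (Pool.Agent.Helper99.RT.mem_sumC.2 ⟨f, hf, rfl⟩)
    · intro hy
      obtain ⟨f, hf, hy2⟩ := Pool.Agent.Helper99.RT.mem_sumC.1 (mem_coe.1 hy)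
      exact ⟨f, hf, hy2.symm⟩
  have himg : ∀ A : Finset ℤ, {s : ℤ | ∃ a ∈ A, ∃ b ∈ A, s = a + b} =
      ((image₂ (fun a b => a + b) A A : Finset ℤ) : Set ℤ) := by
    intro A
    ext y
    simp only [Set.mem_ofPred_eq, mem_coe, mem_image₂]
    constructor
    · rintro ⟨a, ha, b, hb, rfl⟩
      exact ⟨a, ha, b, hb, rfl⟩
    · rintro ⟨a, ha, b, hb, h⟩
      exact ⟨a, ha, b, hb, h.symm⟩
  refine ⟨m, c, hc, ?_, ?_⟩
  · intro A hA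
    obtain ⟨Z, hZ, h⟩ := h1 A hA
    refine ⟨Z, hZ, fun F hd hF B hB => ?_⟩
    rw [himg, Set.ncard_coe_finset] at hF
    have h3 := h F hd hF B hB
    have h4 : {y : ℂ | ∃ a : Fin k → ℤ, (∀ i, a i ∈ A) ∧ ∃ b ∈ B,
        y = (∏ i, (((F i).eval (a i) : ℤ) : ℂ)) * b} =
        (Pool.Agent.Helper99.TR.polyProd F A B : Set ℂ) := by
      ext y
      constructor
      · rintro ⟨a, ha, b, hb, rfl⟩
        exact mem_coe.2 ((Pool.Agent.Helper99.TR.mem_polyProd _ _ _ _).2 ⟨a, ha, b, hb, rfl⟩)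
      · intro hy
        obtain ⟨a, ha, b, hb, hy2⟩ :=
          (Pool.Agent.Helper99.TR.mem_polyProd _ _ _ _).1 (mem_coe.1 hy)
        exact ⟨a, ha, b, hb, hy2.symm⟩
    have h5 : {y : ℂ | ∃ a : Fin k → ℤ, (∀ i, a i ∈ A ∧ (F i).eval (a i) ≠ 0) ∧ ∃ b ∈ B,
        y = (∑ i, 1 / (((F i).eval (a i) : ℤ) : ℂ)) + b} =
        (Pool.Agent.Helper99.RT.polyRec F A B : Set ℂ) := by
      ext y
      constructor
      · rintro ⟨a, ha, b, hb, rfl⟩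
        refine mem_coe.2 ((Pool.Agent.Helper99.RT.mem_polyRec _ _ _ _).2 ⟨a, ha, b, hb, ?_⟩)
        simp only [one_div]
      · intro hy
        obtain ⟨a, ha, b, hb, hy2⟩ :=
          (Pool.Agent.Helper99.RT.mem_polyRec _ _ _ _).1 (mem_coe.1 hy)
        refine ⟨a, ha, b, hb, ?_⟩
        simp only [one_div]
        exact hy2.symm
    constructor
    · intro h0
      rw [h4, Set.ncard_coe_finset, mul_assoc]
      refine (h3.1 h0).trans ?_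
      exact_mod_cast card_le_card (erase_subset _ _)
    · rw [h5, Set.ncard_coe_finset, mul_assoc]
      exact h3.2
  · intro B A hB hA hAB F t hF hFF
    have h3 := h2 B A hB hA hAB F t (fun i => (hF i).2.2.2)
      (fun i => ⟨(hF i).1, (hF i).2.1, (hF i).2.2.1⟩) hFF
    rw [hprod A, hsum A, Set.ncard_coe_finset, Set.ncard_coe_finset]
    exact h3

end Pool.Agent.Helper99.FS
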