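import Pool.Agent.Helper99.FS.Pol

/-!
# Project FS (MP_120218_co): sets whose popular residue classes have small weight
-/

set_option autoImplicit false

open Finset Polynomial

namespace Pool.Agent.Helper99.FS

open Pool.Agent.Helper26.TR Pool.Agent.Helper88.NZ Pool.Agent.Helper99.TR
open Pool.Agent.Helper99.RT (rvals mem_rvals smm mem_smm hSum_large expandAdd hSum nrMix)
open Pool.Agent.Helper88.RT (W1a NRMix recSum)
open Pool.Agent.Helper34.TR (nzMixT)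

/-- the popular residue classes modulo prime powers have weight at most `R` -/
def WtC (κ R : ℝ) (A : Finset ℤ) : Prop :=
  ∀ (S : Finset ℕ) (l : ℕ → ℕ) (r : ℕ → ℤ), (∀ p ∈ S, p.Prime) →
    (∀ p ∈ S, κ * (A.card : ℝ) ≤ ((A.filter (fun a => (p : ℤ) ^ l p ∣ a - r p)).card : ℝ)) →
    ∑ p ∈ S, (l p : ℝ) * Real.log p ≤ R

theorem WtC.mono {κ κ' R R' : ℝ} (h : κ ≤ κ') (hR : R ≤ R') {A : Finset ℤ} (hA : WtC κ R A) :
    WtC κ' R' A := by
  intro S l r hS hpop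
  refine (hA S l r hS fun p hp => le_trans ?_ (hpop p hp)).trans hR
  exact mul_le_mul_of_nonneg_right h (Nat.cast_nonneg _)

/-- a popular divisor of the values of a primitive polynomial gives a popular class -/
theorem lev_class {A : Finset ℤ} {d : ℕ} (hd : 1 ≤ d) (hA : 2 * d ≤ A.card) {κ : ℝ}
    (hκ0 : 0 < κ) (hκ1 : κ ≤ 1) {P : ℤ[X]} (hP : P.IsPrimitive) (hP1 : 1 ≤ P.natDegree)
    (hPd : P.natDegree ≤ d) {q : ℕ} (hq : q.Prime) (hlpos : 0 < lev κ (fz A P) q) :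
    ∃ (t : ℕ) (r : ℤ), lev κ (fz A P) q ≤ d * t ∧ κ / (2 * (d : ℝ) ^ 2) * A.card ≤
      ((A.filter (fun a => (q : ℤ) ^ t ∣ a - r)).card : ℝ) := by
  classical
  have hAne : A.Nonempty := card_pos.1 (by omega)
  have hA0 : (0 : ℝ) < A.card := by exact_mod_cast hAne.card_pos
  have hd0 : (0 : ℝ) < d := by exact_mod_cast hd
  set l := lev κ (fz A P) q with hl
  obtain ⟨t, ht0, ht1, ht2⟩ : ∃ t : ℕ, 1 ≤ t ∧ l ≤ d * t ∧ d * (t - 1) < l := by
    refine ⟨(l + (d - 1)) / d, ?_⟩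
    have h1 := Nat.div_add_mod (l + (d - 1)) d
    have h2 := Nat.mod_lt (l + (d - 1)) (by omega : d > 0)
    generalize (l + (d - 1)) / d = t at h1 ⊢
    generalize (l + (d - 1)) % d = u at h1 h2
    have ht0 : 1 ≤ t := by
      by_contra h
      have h0 : t = 0 := by omega
      rw [h0, Nat.mul_zero] at h1
      omega
    have h3 : d * (t - 1) = d * t - d := by rw [Nat.mul_sub, Nat.mul_one]
    have h4 : d ≤ d * t := Nat.le_mul_of_pos_right d ht0
    refine ⟨ht0, by omega, by omega⟩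
  have hpts := pop_points hP1 hPd hA hκ0.le hκ1 (le_refl l)
  set T : Finset ℤ := A.filter (fun a => (q : ℤ) ^ l ∣ P.eval a) with hT
  have hTne : T.Nonempty := by
    rw [nonempty_iff_ne_empty]
    intro h0
    rw [h0, card_empty, Nat.cast_zero, mul_zero] at hpts
    have : 0 < κ * A.card := by positivity
    linarith
  obtain ⟨r, -, hrc⟩ := exists_class hP hPd hq (l := l) (t := t) ht2 hTne
    (fun a ha => (mem_filter.1 ha).2)
  have h1 : κ / (2 * (d : ℝ) ^ 2) * A.card ≤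
      ((A.filter (fun a => (q : ℤ) ^ t ∣ a - r)).card : ℝ) := by
    have h2 : (T.card : ℝ) ≤ d * ((T.filter (fun a => (q : ℤ) ^ t ∣ a - r)).card : ℝ) := by
      exact_mod_cast hrc
    have h3 : ((T.filter (fun a => (q : ℤ) ^ t ∣ a - r)).card : ℝ) ≤
        ((A.filter (fun a => (q : ℤ) ^ t ∣ a - r)).card : ℝ) := by
      exact_mod_cast card_le_card (filter_subset_filter _ (filter_subset _ _))
    rw [div_mul_eq_mul_div, div_le_iff₀ (by positivity)]
    calc κ * A.card ≤ 2 * d * T.card := hpts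
      _ ≤ 2 * d * (d * ((A.filter (fun a => (q : ℤ) ^ t ∣ a - r)).card : ℝ)) := by
          apply mul_le_mul_of_nonneg_left _ (by positivity)
          exact h2.trans (mul_le_mul_of_nonneg_left h3 hd0.le)
      _ = _ := by ring
  exact ⟨t, r, ht1, h1⟩

theorem W0_le {A : Finset ℤ} {d : ℕ} (hd : 1 ≤ d) (hA : 2 * d ≤ A.card) {κ R : ℝ}
    (hκ0 : 0 < κ) (hκ1 : κ ≤ 1) (hW : WtC (κ / (2 * (d : ℝ) ^ 2)) R A)
    {P : ℤ[X]} (hP : P.IsPrimitive) (hP1 : 1 ≤ P.natDegree) (hPd : P.natDegree ≤ d) :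
    W0 κ (fz A P) ≤ d * R := by
  classical
  have hprime : ∀ q ∈ prs (fz A P), q.Prime := by
    intro q hq
    unfold prs at hq
    rw [mem_biUnion] at hq
    obtain ⟨x, _, hx⟩ := hq
    exact Nat.prime_of_mem_primeFactors hx
  have hex : ∀ q : ℕ, ∃ tr : ℕ × ℤ, q.Prime → 0 < lev κ (fz A P) q →
      lev κ (fz A P) q ≤ d * tr.1 ∧ κ / (2 * (d : ℝ) ^ 2) * A.card ≤
        ((A.filter (fun a => (q : ℤ) ^ tr.1 ∣ a - tr.2)).card : ℝ) := by
    intro q
    by_cases h : q.Prime ∧ 0 < lev κ (fz A P) q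
    · obtain ⟨t, r, h1, h2⟩ := lev_class hd hA hκ0 hκ1 hP hP1 hPd h.1 h.2
      exact ⟨(t, r), fun _ _ => ⟨h1, h2⟩⟩
    · exact ⟨(0, 0), fun h1 h2 => absurd ⟨h1, h2⟩ h⟩
  choose tr htr using hex
  set S : Finset ℕ := (prs (fz A P)).filter (fun q => 0 < lev κ (fz A P) q) with hS
  have h1 := hW S (fun q => (tr q).1) (fun q => (tr q).2)
    (fun q hq => hprime q (mem_filter.1 hq).1)
    (fun q hq => (htr q (hprime q (mem_filter.1 hq).1) (mem_filter.1 hq).2).2)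
  have hd0 : (0 : ℝ) ≤ d := Nat.cast_nonneg _
  unfold W0
  calc ∑ q ∈ prs (fz A P), (lev κ (fz A P) q : ℝ) * Real.log q
      = ∑ q ∈ S, (lev κ (fz A P) q : ℝ) * Real.log q := by
        rw [hS, sum_filter]
        apply sum_congr rfl
        intro q _
        split_ifs with h
        · rfl
        · have h0 : lev κ (fz A P) q = 0 := by omega
          rw [h0, Nat.cast_zero, zero_mul]
    _ ≤ ∑ q ∈ S, d * (((tr q).1 : ℝ) * Real.log q) := by
        apply sum_le_sum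
        intro q hq
        have h2 := (htr q (hprime q (mem_filter.1 hq).1) (mem_filter.1 hq).2).1
        have h3 : (lev κ (fz A P) q : ℝ) ≤ d * ((tr q).1 : ℝ) := by exact_mod_cast h2
        calc (lev κ (fz A P) q : ℝ) * Real.log q ≤ (d * ((tr q).1 : ℝ)) * Real.log q :=
              mul_le_mul_of_nonneg_right h3 (Real.log_natCast_nonneg _)
          _ = _ := by ring
    _ = d * ∑ q ∈ S, ((tr q).1 : ℝ) * Real.log q := by rw [mul_sum]
    _ ≤ d * R := mul_le_mul_of_nonneg_left h1 hd0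

/-- **Products, sets whose popular classes have small weight.** -/
theorem wtProd (ε : ℝ) (d : ℕ) (hε : 0 < ε) (hd : 1 ≤ d) : ∃ (κ c : ℝ) (n₀ : ℕ),
    0 < κ ∧ κ ≤ 1 ∧ 0 < c ∧ ∀ A : Finset ℤ, n₀ ≤ A.card →
      WtC κ (c * (Real.log A.card * Real.log (Real.log A.card))) A →
      ∀ F : ℤ[X], 1 ≤ F.natDegree → F.natDegree ≤ d → ∀ B : Finset ℂ, B.Nonempty →
        (0 : ℂ) ∉ B →
        c * ((A.card : ℝ) * (B.card : ℝ)) ^ (1 - ε) ≤ (((valProd F A B).erase 0).card : ℝ) := by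
  classical
  have hdr : (1 : ℝ) ≤ d := by exact_mod_cast hd
  have hdr0 : (0 : ℝ) < d := by linarith
  set k : ℕ := ⌈1 / ε⌉₊ with hk
  have hk1' : 1 / ε ≤ (k : ℝ) := Nat.le_ceil _
  have hk0' : 0 < k := by
    rw [hk, Nat.ceil_pos]
    positivity
  have hk1 : (1 : ℝ) ≤ k := by exact_mod_cast hk0'
  have hk0 : (0 : ℝ) < k := by linarith
  have hkε : 1 / (k : ℝ) ≤ ε := by
    rw [div_le_iff₀ hk0]
    rw [div_le_iff₀ hε] at hk1'
    linarith
  clear_value k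
  obtain ⟨κ, C, c₁, hκ, hC, hc₁, hnz⟩ := nzMixT k 1 one_pos 1 one_pos le_rfl
  obtain ⟨κ₀, hκ₀, hκ₀le⟩ : ∃ κ₀ : ℝ, 0 < κ₀ ∧ ∀ l, κ₀ ≤ κ l := by
    have : Nonempty (Fin k) := ⟨⟨0, hk0'⟩⟩
    obtain ⟨l₀, hl₀⟩ := Finite.exists_min κ
    exact ⟨κ l₀, (hκ l₀).1, hl₀⟩
  have hκ₀1 : κ₀ ≤ 1 := (hκ₀le ⟨0, hk0'⟩).trans (hκ _).2
  have hkd0 : (0 : ℝ) < 2 * (k * d) := by positivity
  obtain ⟨n₀, hn₀, hthr⟩ := exists_threshold 1 0 one_pos (2 * d)
  set c₂ : ℝ := min (c₁ / (2 * (k * d))) ((c₁ / (2 * d) ^ k / 2) ^ (1 / (k : ℝ))) with hc₂def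
  have hc₂ : 0 < c₂ := lt_min (by positivity) (by positivity)
  refine ⟨κ₀ / (2 * (d : ℝ) ^ 2), c₂, n₀, by positivity, ?_, hc₂, ?_⟩
  · rw [div_le_one (by positivity)]
    have : (1 : ℝ) ≤ (d : ℝ) ^ 2 := one_le_pow₀ hdr
    linarith
  intro A hA hW F hF1 hFd B hB h0
  have hA2d : 2 * d ≤ A.card := hn₀.trans hA
  have hAne : A.Nonempty := card_pos.1 (by omega)
  have hN1 : (1 : ℝ) ≤ A.card := by exact_mod_cast card_pos.2 hAne
  obtain ⟨P, g, hg0, hPp, hP1, hPd, hFP⟩ := prim_facts hF1 hFd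
  have hdd0 : (0 : ℝ) < 2 * d := by linarith
  have hVc : (A.card : ℝ) / (2 * d) ≤ ((fz A P).card : ℝ) := by
    have h1 := card_fz hP1 hPd hA2d
    have h2 : (A.card : ℝ) ≤ 2 * d * ((fz A P).card : ℝ) := by
      exact_mod_cast h1
    rw [div_le_iff₀ hdd0]
    linarith
  have hVne : (fz A P).Nonempty := by
    rw [← card_pos]
    have h2 : 0 < (A.card : ℝ) / (2 * d) := div_pos (by linarith) hdd0
    have h3 : (0 : ℝ) < ((fz A P).card : ℝ) := by linarith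
    exact_mod_cast h3
  have hlarge : c₁ * ((A.card : ℕ) : ℝ) ^ (-(1 : ℝ)) * ∏ _l : Fin k, ((fz A P).card : ℝ) ≤
      ((mixSet (fun _ : Fin k => fz A P)).card : ℝ) := by
    by_contra hlt
    push Not at hlt
    obtain ⟨l, -, -, hl2⟩ := hnz A.card (fun _ : Fin k => fz A P) (fun _ => hVne)
      (fun _ => fz_zero A _) (fun _ => card_fz_le A _) hlt
    have h1 := W0b_const (κ l) (fz A P) l
    have h2 : WtC (κ l / (2 * (d : ℝ) ^ 2))
        (c₂ * (Real.log A.card * Real.log (Real.log A.card))) A :=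
      hW.mono (div_le_div_of_nonneg_right (hκ₀le l) (by positivity)) le_rfl
    have h3 := W0_le hd hA2d (hκ l).1 (hκ l).2 h2 hPp hP1 hPd
    have h4 := hthr A.card hA
    rw [one_mul] at h4
    have h5 : (k : ℝ) * W0 (κ l) (fz A P) ≤
        k * (d * (c₂ * (Real.log A.card * Real.log (Real.log A.card)))) :=
      mul_le_mul_of_nonneg_left h3 hk0.le
    have h6 : c₂ * (2 * (k * d)) ≤ c₁ := by
      have h7 : c₂ ≤ c₁ / (2 * (k * d)) := min_le_left _ _
      rwa [le_div_iff₀ hkd0] at h7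
    have h8 : k * (d * (c₂ * (Real.log A.card * Real.log (Real.log A.card)))) =
        (c₂ * (2 * (k * d))) * (Real.log A.card * Real.log (Real.log A.card)) / 2 := by ring
    have h9 : (c₂ * (2 * (k * d))) * (Real.log A.card * Real.log (Real.log A.card)) ≤
        c₁ * (Real.log A.card * Real.log (Real.log A.card)) :=
      mul_le_mul_of_nonneg_right h6 h4.le
    have h10 : 0 < c₁ * (Real.log A.card * Real.log (Real.log A.card)) := mul_pos hc₁ h4
    linarith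
  have hS := hProd_large (by linarith) hdd0 hc₁ hg0 hFP hVc hlarge
  have hne : ∃ s ∈ cvals F A, s ≠ 0 := by
    obtain ⟨b, hb⟩ := hVne
    have hb0 : b ≠ 0 := ne_of_mem_erase hb
    obtain ⟨a, ha, hab⟩ := mem_image.1 (mem_of_mem_erase hb)
    refine ⟨((F.eval a : ℤ) : ℂ), ?_, ?_⟩
    · unfold cvals
      exact mem_image_of_mem _ ha
    · rw [hFP a, hab]
      exact_mod_cast mul_ne_zero hg0 hb0
  have h1 := expand_erase k hk0' (cvals F A) hne (c₁ / (2 * d) ^ k) (A.card : ℝ) ε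
    (div_pos hc₁ (pow_pos hdd0 k)) hN1 hkε hS B h0 hB
  rw [valProd_eq]
  refine le_trans (mul_le_mul_of_nonneg_right (min_le_right _ _) (by positivity)) h1

/-- **Sums of reciprocals, sets whose popular classes have small weight.** -/
theorem wtSum (ε : ℝ) (d : ℕ) (hε : 0 < ε) (hd : 1 ≤ d) : ∃ (κ c : ℝ) (n₀ : ℕ),
    0 < κ ∧ κ ≤ 1 ∧ 0 < c ∧ ∀ A : Finset ℤ, n₀ ≤ A.card →
      WtC κ (c * (Real.log A.card * Real.log (Real.log A.card))) A →
      ∀ F : ℤ[X], 1 ≤ F.natDegree → F.natDegree ≤ d → ∀ B : Finset ℂ, B.Nonempty →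
        c * ((A.card : ℝ) * (B.card : ℝ)) ^ (1 - ε) ≤ ((smm (rvals F A) B).card : ℝ) := by
  classical
  have hdr : (1 : ℝ) ≤ d := by exact_mod_cast hd
  have hdr0 : (0 : ℝ) < d := by linarith
  set k : ℕ := ⌈1 / ε⌉₊ with hk
  have hk1' : 1 / ε ≤ (k : ℝ) := Nat.le_ceil _
  have hk0' : 0 < k := by
    rw [hk, Nat.ceil_pos]
    positivity
  have hk1 : (1 : ℝ) ≤ k := by exact_mod_cast hk0'
  have hk0 : (0 : ℝ) < k := by linarith
  have hkε : 1 / (k : ℝ) ≤ ε := by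
    rw [div_le_iff₀ hk0]
    rw [div_le_iff₀ hε] at hk1'
    linarith
  clear_value k
  obtain ⟨κ, C, c₁, hκ, hC, hc₁, hnz⟩ := nrMix k 1 one_pos 1 one_pos le_rfl
  obtain ⟨κ₀, hκ₀, hκ₀le⟩ : ∃ κ₀ : ℝ, 0 < κ₀ ∧ ∀ l, κ₀ ≤ κ l := by
    have : Nonempty (Fin k) := ⟨⟨0, hk0'⟩⟩
    obtain ⟨l₀, hl₀⟩ := Finite.exists_min κ
    exact ⟨κ l₀, (hκ l₀).1, hl₀⟩
  have hκ₀1 : κ₀ ≤ 1 := (hκ₀le ⟨0, hk0'⟩).trans (hκ _).2
  have hkd0 : (0 : ℝ) < 2 * (k * d) := by positivity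
  obtain ⟨n₀, hn₀, hthr⟩ := exists_threshold 1 0 one_pos (2 * d)
  set c₂ : ℝ := min (c₁ / (2 * (k * d))) ((c₁ / (2 * d) ^ k) ^ (1 / (k : ℝ))) with hc₂def
  have hc₂ : 0 < c₂ := lt_min (by positivity) (by positivity)
  refine ⟨κ₀ / (2 * (d : ℝ) ^ 2), c₂, n₀, by positivity, ?_, hc₂, ?_⟩
  · rw [div_le_one (by positivity)]
    have : (1 : ℝ) ≤ (d : ℝ) ^ 2 := one_le_pow₀ hdr
    linarith
  intro A hA hW F hF1 hFd B hB
  have hA2d : 2 * d ≤ A.card := hn₀.trans hA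
  have hAne : A.Nonempty := card_pos.1 (by omega)
  have hN1 : (1 : ℝ) ≤ A.card := by exact_mod_cast card_pos.2 hAne
  obtain ⟨P, g, hg0, hPp, hP1, hPd, hFP⟩ := prim_facts hF1 hFd
  have hdd0 : (0 : ℝ) < 2 * d := by linarith
  have hVc : (A.card : ℝ) / (2 * d) ≤ ((fz A P).card : ℝ) := by
    have h1 := card_fz hP1 hPd hA2d
    have h2 : (A.card : ℝ) ≤ 2 * d * ((fz A P).card : ℝ) := by
      exact_mod_cast h1
    rw [div_le_iff₀ hdd0]
    linarith
  have hVne : (fz A P).Nonempty := by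
    rw [← card_pos]
    have h2 : 0 < (A.card : ℝ) / (2 * d) := div_pos (by linarith) hdd0
    have h3 : (0 : ℝ) < ((fz A P).card : ℝ) := by linarith
    exact_mod_cast h3
  have hlarge : c₁ * ((A.card : ℕ) : ℝ) ^ (-(1 : ℝ)) * ∏ _l : Fin k, ((fz A P).card : ℝ) ≤
      ((recSum (fun _ : Fin k => fz A P)).card : ℝ) := by
    by_contra hlt
    push Not at hlt
    obtain ⟨l, -, -, hl2⟩ := hnz A.card (fun _ : Fin k => fz A P) (fun _ => hVne)
      (fun _ => fz_zero A _) (fun _ => card_fz_le A _) hlt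
    have h1 := W0b_const (κ l) (fz A P) l
    have h2 : WtC (κ l / (2 * (d : ℝ) ^ 2))
        (c₂ * (Real.log A.card * Real.log (Real.log A.card))) A :=
      hW.mono (div_le_div_of_nonneg_right (hκ₀le l) (by positivity)) le_rfl
    have h3 := W0_le hd hA2d (hκ l).1 (hκ l).2 h2 hPp hP1 hPd
    have h4 := hthr A.card hA
    rw [one_mul] at h4
    have h5 : (k : ℝ) * W0 (κ l) (fz A P) ≤
        k * (d * (c₂ * (Real.log A.card * Real.log (Real.log A.card)))) :=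
      mul_le_mul_of_nonneg_left h3 hk0.le
    have h6 : c₂ * (2 * (k * d)) ≤ c₁ := by
      have h7 : c₂ ≤ c₁ / (2 * (k * d)) := min_le_left _ _
      rwa [le_div_iff₀ hkd0] at h7
    have h8 : k * (d * (c₂ * (Real.log A.card * Real.log (Real.log A.card)))) =
        (c₂ * (2 * (k * d))) * (Real.log A.card * Real.log (Real.log A.card)) / 2 := by ring
    have h9 : (c₂ * (2 * (k * d))) * (Real.log A.card * Real.log (Real.log A.card)) ≤
        c₁ * (Real.log A.card * Real.log (Real.log A.card)) :=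
      mul_le_mul_of_nonneg_right h6 h4.le
    have h10 : 0 < c₁ * (Real.log A.card * Real.log (Real.log A.card)) := mul_pos hc₁ h4
    linarith
  have hS := hSum_large (by linarith) hdd0 hc₁ hg0 hFP hVc hlarge
  refine le_trans (mul_le_mul_of_nonneg_right (min_le_right _ _) (by positivity))
    (expandAdd k hk0' (rvals F A) (c₁ / (2 * d) ^ k) (A.card : ℝ) ε
      (div_pos hc₁ (pow_pos hdd0 k)) hN1 hkε hS B hB)

end Pool.Agent.Helper99.FS
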